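import Pool.Agent.KS6_87.MS.Pave

set_option autoImplicit false

/-! Matroids which become of corank two after deleting parallel elements can be cut. -/

namespace Pool.Agent.KS6_87.MS

open Set Pool.Agent.Q145.MS

variable {n : ℕ}

/-- sets which miss two points of `insert p L` related by `R`, where `p` may be replaced by
any member of `Z` -/
def PF (L Z : Finset (Fin n)) (p : Fin n) (R : Fin n → Fin n → Prop) (B : Finset (Fin n)) : Prop :=
  (∃ e ∈ L, R e p ∧ B = L.erase e) ∨
  (∃ e ∈ L, ∃ f ∈ L, e ≠ f ∧ R e f ∧ ∃ z ∈ Z, B = insert z ((L.erase e).erase f))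

theorem set_a {L : Finset (Fin n)} {e x : Fin n} (he : e ∈ L) (hex : e ≠ x) :
    insert e ((L.erase e).erase x) = L.erase x := by
  ext i; simp only [Finset.mem_insert, Finset.mem_erase]; grind

theorem set_b {L : Finset (Fin n)} {e f z : Fin n} (hz : z ∉ L) :
    (insert z ((L.erase e).erase f)).erase z = (L.erase e).erase f := by
  ext i; simp only [Finset.mem_insert, Finset.mem_erase]; grind

theorem set_c {L : Finset (Fin n)} {e f x z : Fin n} (he : e ∈ L) (hef : e ≠ f) (hex : e ≠ x)
    (hxz : x ≠ z) :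
    insert e ((insert z ((L.erase e).erase f)).erase x) = insert z ((L.erase f).erase x) := by
  ext i; simp only [Finset.mem_insert, Finset.mem_erase]; grind

theorem set_d {L : Finset (Fin n)} {e f x z : Fin n} (hf : f ∈ L) (hef : e ≠ f) (hex : f ≠ x)
    (hxz : x ≠ z) :
    insert f ((insert z ((L.erase e).erase f)).erase x) = insert z ((L.erase e).erase x) := by
  ext i; simp only [Finset.mem_insert, Finset.mem_erase]; grind

theorem PF_exchange {L Z : Finset (Fin n)} {p : Fin n} {R : Fin n → Fin n → Prop}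
    (hZ : ∀ z ∈ Z, z ∉ L) (hp : p ∉ L) (hsymm : ∀ x y, R x y → R y x)
    (htr : ∀ x ∈ insert p L, ∀ y ∈ insert p L, ∀ z ∈ insert p L, ∀ w ∈ insert p L,
      x ≠ y → z ≠ w → z ≠ x → z ≠ y → R x y → R z w → R x z ∨ R y z)
    {A B : Finset (Fin n)} (hA : PF L Z p R A) (hB : PF L Z p R B) {x : Fin n}
    (hx : x ∈ A) (hx' : x ∉ B) :
    ∃ y, y ∈ B ∧ y ∉ A ∧ PF L Z p R (insert y (A.erase x)) := by
  have hin : ∀ e ∈ L, e ∈ insert p L := fun e he => Finset.mem_insert_of_mem he
  have hpin : p ∈ insert p L := Finset.mem_insert_self _ _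
  have hpne : ∀ e ∈ L, p ≠ e := fun e he h => hp (h ▸ he)
  -- shape of `B` when `x ∈ L`
  have shape : x ∈ L → (R x p ∧ B = L.erase x) ∨
      ∃ g ∈ L, x ≠ g ∧ R x g ∧ ∃ z ∈ Z, B = insert z ((L.erase x).erase g) := by
    intro hxL
    rcases hB with ⟨e, he, hR, rfl⟩ | ⟨e, he, f, hf, hef, hR, z, hz, rfl⟩
    · have : x = e := by
        by_contra h
        exact hx' (Finset.mem_erase.2 ⟨h, hxL⟩)
      subst this
      exact Or.inl ⟨hR, rfl⟩
    · right
      have : x = e ∨ x = f := by
        by_contra h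
        push Not at h
        exact hx' (Finset.mem_insert_of_mem (Finset.mem_erase.2 ⟨h.2, Finset.mem_erase.2
          ⟨h.1, hxL⟩⟩))
      rcases this with rfl | rfl
      · exact ⟨f, hf, hef, hR, z, hz, rfl⟩
      · exact ⟨e, he, hef.symm, hsymm _ _ hR, z, hz, by rw [Finset.erase_right_comm]⟩
  rcases hA with ⟨e, he, hR, rfl⟩ | ⟨e, he, f, hf, hef, hR, z, hz, rfl⟩
  · -- `A = L - e`
    have hxL : x ∈ L := Finset.mem_of_mem_erase hx
    have hxe : x ≠ e := Finset.ne_of_mem_erase hx
    rcases shape hxL with ⟨hR', rfl⟩ | ⟨g, hg, hxg, hRg, z', hz', rfl⟩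
    · refine ⟨e, Finset.mem_erase.2 ⟨hxe.symm, he⟩, by simp, Or.inl ⟨x, hxL, hR', ?_⟩⟩
      exact set_a he hxe.symm
    · have hz'L := hZ z' hz'
      by_cases hRex : R e x
      · refine ⟨z', Finset.mem_insert_self _ _, fun h => hz'L (Finset.mem_of_mem_erase h),
          Or.inr ⟨e, he, x, hxL, hxe.symm, hRex, z', hz', rfl⟩⟩
      · have hRpx : R p x := by
          rcases htr e (hin e he) p hpin x (hin x hxL) g (hin g hg) (hpne e he).symm hxg hxe
            (hpne x hxL).symm hR hRg with h | h
          · exact absurd h hRex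
          · exact h
        have heg : e ≠ g := by
          rintro rfl
          exact hRex (hsymm _ _ hRg)
        refine ⟨e, Finset.mem_insert_of_mem (Finset.mem_erase.2 ⟨heg, Finset.mem_erase.2
          ⟨hxe.symm, he⟩⟩), by simp, Or.inl ⟨x, hxL, hsymm _ _ hRpx, ?_⟩⟩
        exact set_a he hxe.symm
  · -- `A = L - e - f + z`
    have hzL := hZ z hz
    by_cases hxz : x = z
    · subst hxz
      rw [set_b hzL]
      rcases hB with ⟨e', he', hR', rfl⟩ | ⟨e', he', f', hf', hef', hR', z', hz', rfl⟩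
      · -- `B = L - e'`
        have hfin : R f p → e ≠ e' → ∃ y, y ∈ L.erase e' ∧ y ∉ insert x ((L.erase e).erase f) ∧
            PF L Z p R (insert y ((L.erase e).erase f)) := by
          intro h1 h2
          refine ⟨e, Finset.mem_erase.2 ⟨h2, he⟩, ?_, Or.inl ⟨f, hf, h1, ?_⟩⟩
          · intro h
            rcases Finset.mem_insert.1 h with h | h
            · exact hzL (h ▸ he)
            · exact (Finset.ne_of_mem_erase (Finset.mem_of_mem_erase h)) rfl
          · exact set_a he hef
        have hfin' : R e p → f ≠ e' → ∃ y, y ∈ L.erase e' ∧ y ∉ insert x ((L.erase e).erase f) ∧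
            PF L Z p R (insert y ((L.erase e).erase f)) := by
          intro h1 h2
          refine ⟨f, Finset.mem_erase.2 ⟨h2, hf⟩, ?_, Or.inl ⟨e, he, h1, ?_⟩⟩
          · intro h
            rcases Finset.mem_insert.1 h with h | h
            · exact hzL (h ▸ hf)
            · exact (Finset.ne_of_mem_erase h) rfl
          · rw [Finset.erase_right_comm]
            exact set_a hf hef.symm
        by_cases h1 : e = e'
        · subst h1
          exact hfin' hR' hef.symm
        · by_cases h2 : f = e'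
          · subst h2
            exact hfin hR' h1
          · rcases htr e (hin e he) f (hin f hf) p hpin e' (hin e' he') hef (hpne e' he')
              (hpne e he) (hpne f hf) hR (hsymm _ _ hR') with h | h
            · exact hfin' h h2
            · exact hfin h h1
      · -- `B = L - e' - f' + z'`
        have hz'L := hZ z' hz'
        refine ⟨z', Finset.mem_insert_self _ _, ?_, Or.inr ⟨e, he, f, hf, hef, hR, z', hz', rfl⟩⟩
        intro h
        rcases Finset.mem_insert.1 h with h | h
        · exact hx' (h ▸ Finset.mem_insert_self _ _)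
        · exact hz'L (Finset.mem_of_mem_erase (Finset.mem_of_mem_erase h))
    · -- `x ∈ L`
      have hx2 : x ∈ (L.erase e).erase f := by
        rcases Finset.mem_insert.1 hx with h | h
        · exact absurd h hxz
        · exact h
      have hxf : x ≠ f := Finset.ne_of_mem_erase hx2
      have hxe : x ≠ e := Finset.ne_of_mem_erase (Finset.mem_of_mem_erase hx2)
      have hxL : x ∈ L := Finset.mem_of_mem_erase (Finset.mem_of_mem_erase hx2)
      -- the two moves
      have mv1 : R f x → e ∈ B → ∃ y, y ∈ B ∧ y ∉ insert z ((L.erase e).erase f) ∧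
          PF L Z p R (insert y ((insert z ((L.erase e).erase f)).erase x)) := by
        intro h1 h2
        refine ⟨e, h2, ?_, Or.inr ⟨f, hf, x, hxL, hxf.symm, h1, z, hz, ?_⟩⟩
        · intro h
          rcases Finset.mem_insert.1 h with h | h
          · exact hzL (h ▸ he)
          · exact (Finset.ne_of_mem_erase (Finset.mem_of_mem_erase h)) rfl
        · exact set_c he hef hxe.symm hxz
      have mv2 : R e x → f ∈ B → ∃ y, y ∈ B ∧ y ∉ insert z ((L.erase e).erase f) ∧
          PF L Z p R (insert y ((insert z ((L.erase e).erase f)).erase x)) := by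
        intro h1 h2
        refine ⟨f, h2, ?_, Or.inr ⟨e, he, x, hxL, hxe.symm, h1, z, hz, ?_⟩⟩
        · intro h
          rcases Finset.mem_insert.1 h with h | h
          · exact hzL (h ▸ hf)
          · exact (Finset.ne_of_mem_erase h) rfl
        · exact set_d hf hef hxf.symm hxz
      rcases shape hxL with ⟨hR', hBe⟩ | ⟨g, hg, hxg, hRg, z', hz', hBe⟩
      · have heB : e ∈ B := by rw [hBe]; exact Finset.mem_erase.2 ⟨hxe.symm, he⟩
        have hfB : f ∈ B := by rw [hBe]; exact Finset.mem_erase.2 ⟨hxf.symm, hf⟩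
        rcases htr e (hin e he) f (hin f hf) x (hin x hxL) p hpin hef (hpne x hxL).symm hxe hxf
          hR hR' with h | h
        · exact mv2 h hfB
        · exact mv1 h heB
      · have hmem : ∀ u ∈ L, u ≠ x → u ≠ g → u ∈ B := by
          intro u hu h1 h2
          rw [hBe]
          exact Finset.mem_insert_of_mem (Finset.mem_erase.2 ⟨h2, Finset.mem_erase.2 ⟨h1, hu⟩⟩)
        by_cases h1 : e = g
        · subst h1
          exact mv2 (hsymm _ _ hRg) (hmem f hf hxf.symm hef.symm)
        · by_cases h2 : f = g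
          · subst h2
            exact mv1 (hsymm _ _ hRg) (hmem e he hxe.symm hef)
          · rcases htr e (hin e he) f (hin f hf) x (hin x hxL) g (hin g hg) hef hxg hxe hxf
              hR hRg with h | h
            · exact mv2 h (hmem f hf hxf.symm h2)
            · exact mv1 h (hmem e he hxe.symm h1)

theorem isMat_PF {L Z : Finset (Fin n)} {p : Fin n} {R : Fin n → Fin n → Prop}
    (hZ : ∀ z ∈ Z, z ∉ L) (hp : p ∉ L) (hsymm : ∀ x y, R x y → R y x)
    (htr : ∀ x ∈ insert p L, ∀ y ∈ insert p L, ∀ z ∈ insert p L, ∀ w ∈ insert p L,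
      x ≠ y → z ≠ w → z ≠ x → z ≠ y → R x y → R z w → R x z ∨ R y z)
    {F : Finset (Finset (Fin n))} (hne : F.Nonempty) (hF : ∀ B, B ∈ F ↔ PF L Z p R B) :
    IsMat F := by
  apply isMat_of_exchange hne
  intro A hA B hB x hx hx'
  obtain ⟨y, h1, h2, h3⟩ := PF_exchange hZ hp hsymm htr ((hF A).1 hA) ((hF B).1 hB) hx hx'
  exact ⟨y, h1, h2, (hF _).2 h3⟩

/-- the points `x`, `y` of `insert p L` are the complement of a basis -/
def Rel (N : Finset (Finset (Fin n))) (L : Finset (Fin n)) (p x y : Fin n) : Prop :=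
  x ≠ y ∧ ((insert p L).erase x).erase y ∈ N

theorem rel_symm {N : Finset (Finset (Fin n))} {L : Finset (Fin n)} {p : Fin n} (x y : Fin n)
    (h : Rel N L p x y) : Rel N L p y x :=
  ⟨h.1.symm, by rw [Finset.erase_right_comm]; exact h.2⟩

theorem rel_trans {N : Finset (Finset (Fin n))} (hN : IsMat N) {L : Finset (Fin n)} {p : Fin n} :
    ∀ x ∈ insert p L, ∀ y ∈ insert p L, ∀ z ∈ insert p L, ∀ w ∈ insert p L,
      x ≠ y → z ≠ w → z ≠ x → z ≠ y → Rel N L p x y → Rel N L p z w →
        Rel N L p x z ∨ Rel N L p y z := by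
  intro x hx y hy z hz w _ hxy hzw hzx hzy h1 h2
  obtain ⟨u, hu2, hu1, hC, _⟩ := hN.symm h1.2 h2.2 (x := z)
    (Finset.mem_erase.2 ⟨hzy, Finset.mem_erase.2 ⟨hzx, hz⟩⟩) (by simp)
  have huL : u ∈ insert p L := Finset.mem_of_mem_erase (Finset.mem_of_mem_erase hu2)
  have hu : u = x ∨ u = y := by
    by_contra h
    push Not at h
    exact hu1 (Finset.mem_erase.2 ⟨h.2, Finset.mem_erase.2 ⟨h.1, huL⟩⟩)
  rcases hu with rfl | rfl
  · right
    refine ⟨hzy.symm, ?_⟩
    convert hC using 1
    generalize insert p L = M at hx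
    ext i; simp only [Finset.mem_insert, Finset.mem_erase]; grind
  · left
    refine ⟨hzx.symm, ?_⟩
    convert hC using 1
    generalize insert p L = M at hy
    ext i; simp only [Finset.mem_insert, Finset.mem_erase]; grind

theorem off_unique {r : ℕ} {L C : Finset (Fin n)} (hC : C ∈ Qk r L) {u v : Fin n} (hu : u ∈ C)
    (hv : v ∈ C) (hu' : u ∉ L) (hv' : v ∉ L) : u = v := by
  rw [mem_Qk] at hC
  have h1 := Finset.card_sdiff_add_card_inter C L
  have h2 : (C \ L).card ≤ 1 := by omega
  exact Finset.card_le_one.1 h2 u (Finset.mem_sdiff.2 ⟨hu, hu'⟩) v (Finset.mem_sdiff.2 ⟨hv, hv'⟩)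

/-- points outside `L` are parallel -/
theorem par {N : Finset (Finset (Fin n))} (hN : IsMat N) {r : ℕ} {L : Finset (Fin n)}
    (hsub : N ⊆ Qk r L) {B C : Finset (Fin n)} {z p : Fin n} (hB : B ∈ N) (hz : z ∈ B)
    (hzL : z ∉ L) (hC : C ∈ N) (hp : p ∈ C) (hpL : p ∉ L) : insert p (B.erase z) ∈ N := by
  by_cases hpz : p = z
  · subst hpz
    rwa [Finset.insert_erase hz]
  · have hpB : p ∉ B := fun h => hpz (off_unique (hsub hB) h hz hpL hzL)
    obtain ⟨y, hy, _, _, h2⟩ := hN.symm hC hB hp hpB
    have hyz : y = z := by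
      by_contra hne
      have h3 : z ∈ insert p (B.erase y) :=
        Finset.mem_insert_of_mem (Finset.mem_erase.2 ⟨fun h => hne h.symm, hz⟩)
      exact hpz (off_unique (hsub h2) (Finset.mem_insert_self _ _) h3 hpL hzL)
    rwa [hyz] at h2

open Classical in
/-- the points outside `L` which lie in a basis -/
noncomputable def Zs (N : Finset (Finset (Fin n))) (L : Finset (Fin n)) : Finset (Fin n) :=
  Finset.univ.filter (fun z => z ∉ L ∧ ∃ B ∈ N, z ∈ B)

theorem mem_Zs {N : Finset (Finset (Fin n))} {L : Finset (Fin n)} {z : Fin n} :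
    z ∈ Zs N L ↔ z ∉ L ∧ ∃ B ∈ N, z ∈ B := by
  simp [Zs]

theorem er1 {L : Finset (Fin n)} {e p : Fin n} (hp : p ∉ L) :
    ((insert p L).erase e).erase p = L.erase e := by
  ext i; simp only [Finset.mem_insert, Finset.mem_erase]; grind

theorem er2 {L : Finset (Fin n)} {e f p : Fin n} (hp : p ∉ L) (he : e ∈ L) (hf : f ∈ L) :
    ((insert p L).erase e).erase f = insert p ((L.erase e).erase f) := by
  ext i; simp only [Finset.mem_insert, Finset.mem_erase]; grind

theorem er3 {L : Finset (Fin n)} {e f p : Fin n} (hp : p ∉ L) :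
    (insert p ((L.erase e).erase f)).erase p = (L.erase e).erase f := by
  ext i; simp only [Finset.mem_insert, Finset.mem_erase]; grind

/-- the structure of the matroid -/
theorem structure_PF {N : Finset (Finset (Fin n))} (hN : IsMat N) {r : ℕ} {L : Finset (Fin n)}
    (hL : L.card = r + 2) (hsub : N ⊆ Qk r L) {p : Fin n} (hp : p ∈ Zs N L)
    (B : Finset (Fin n)) : B ∈ N ↔ PF L (Zs N L) p (Rel N L p) B := by
  obtain ⟨hpL, C, hC, hpC⟩ := mem_Zs.1 hp
  constructor
  · intro hB
    have hB' := mem_Qk.1 (hsub hB)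
    by_cases hBL : B ⊆ L
    · left
      have h1 : (L \ B).card = 1 := by
        rw [Finset.card_sdiff_of_subset hBL]; omega
      obtain ⟨e, he⟩ := Finset.card_eq_one.1 h1
      have heL : e ∈ L \ B := by rw [he]; simp
      have hBe : B = L.erase e := by
        rw [← Finset.sdiff_singleton_eq_erase, ← he, Finset.sdiff_sdiff_eq_self hBL]
      refine ⟨e, (Finset.mem_sdiff.1 heL).1, ⟨?_, ?_⟩, hBe⟩
      · rintro rfl; exact hpL (Finset.mem_sdiff.1 heL).1
      · rw [er1 hpL, ← hBe]; exact hB
    · right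
      obtain ⟨z, hzB, hzL⟩ := Finset.not_subset.1 hBL
      have h0 := Finset.card_sdiff_add_card_inter B L
      have h0' : 1 ≤ (B \ L).card := Finset.card_pos.2 ⟨z, Finset.mem_sdiff.2 ⟨hzB, hzL⟩⟩
      have h1 := Finset.card_sdiff_add_card_inter L B
      rw [Finset.inter_comm] at h1
      have h2 : (L \ B).card = 2 := by omega
      obtain ⟨e, f, hef, hs⟩ := Finset.card_eq_two.1 h2
      have heL : e ∈ L \ B := by rw [hs]; simp
      have hfL : f ∈ L \ B := by rw [hs]; simp
      have hBe : B = insert z ((L.erase e).erase f) := by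
        ext i
        simp only [Finset.mem_insert, Finset.mem_erase]
        constructor
        · intro hi
          by_cases hiL : i ∈ L
          · right
            refine ⟨?_, ?_, hiL⟩
            · rintro rfl; exact (Finset.mem_sdiff.1 hfL).2 hi
            · rintro rfl; exact (Finset.mem_sdiff.1 heL).2 hi
          · left
            exact off_unique (hsub hB) hi hzB hiL hzL
        · rintro (rfl | ⟨h3, h4, h5⟩)
          · exact hzB
          · by_contra h6
            have : i ∈ L \ B := Finset.mem_sdiff.2 ⟨h5, h6⟩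
            rw [hs] at this
            simp only [Finset.mem_insert, Finset.mem_singleton] at this
            rcases this with h | h
            · exact h4 h
            · exact h3 h
      refine ⟨e, (Finset.mem_sdiff.1 heL).1, f, (Finset.mem_sdiff.1 hfL).1, hef, ⟨hef, ?_⟩,
        z, mem_Zs.2 ⟨hzL, B, hB, hzB⟩, hBe⟩
      rw [er2 hpL (Finset.mem_sdiff.1 heL).1 (Finset.mem_sdiff.1 hfL).1]
      have h3 := par hN hsub hB hzB hzL hC hpC hpL
      rw [hBe, er3 hzL] at h3
      exact h3
  · rintro (⟨e, he, hR, rfl⟩ | ⟨e, he, f, hf, hef, hR, z, hz, rfl⟩)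
    · have := hR.2
      rwa [er1 hpL] at this
    · obtain ⟨hzL, D, hD, hzD⟩ := mem_Zs.1 hz
      have h1 := hR.2
      rw [er2 hpL he hf] at h1
      have h3 := par hN hsub h1 (Finset.mem_insert_self _ _) hpL hD hzD hzL
      rwa [er3 hpL] at h3

theorem cardA1 {L A : Finset (Fin n)} {e : Fin n} (hA : A ⊆ L) (_he : e ∈ L) :
    ((L.erase e) ∩ A).card + (if e ∈ A then 1 else 0) = A.card := by
  by_cases h : e ∈ A
  · rw [if_pos h, Finset.erase_inter, Finset.inter_eq_right.2 hA, Finset.card_erase_add_one h]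
  · rw [if_neg h, Finset.erase_inter, Finset.inter_eq_right.2 hA, Finset.erase_eq_of_notMem h,
      add_zero]

theorem cardA2 {L A : Finset (Fin n)} {e f z : Fin n} (hA : A ⊆ L) (hz : z ∉ L)
    (hef : e ≠ f) :
    ((insert z ((L.erase e).erase f)) ∩ A).card + (if e ∈ A then 1 else 0)
      + (if f ∈ A then 1 else 0) = A.card := by
  have hzA : z ∉ A := fun h => hz (hA h)
  rw [Finset.insert_inter_of_notMem hzA, Finset.erase_inter, Finset.erase_inter,
    Finset.inter_eq_right.2 hA]
  by_cases h : e ∈ A <;> by_cases h' : f ∈ A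
  · rw [if_pos h, if_pos h', Finset.card_erase_of_mem (Finset.mem_erase.2 ⟨hef.symm, h'⟩),
      Finset.card_erase_of_mem h]
    have : ({e, f} : Finset (Fin n)).card ≤ A.card := by
      apply Finset.card_le_card
      intro i hi
      simp only [Finset.mem_insert, Finset.mem_singleton] at hi
      rcases hi with rfl | rfl <;> assumption
    rw [Finset.card_pair hef] at this
    omega
  · rw [if_pos h, if_neg h', Finset.erase_eq_of_notMem (a := f)
      (fun h3 => h' (Finset.mem_of_mem_erase h3)), Finset.card_erase_add_one h]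
  · rw [if_neg h, if_pos h', Finset.erase_eq_of_notMem (a := e) h, add_zero,
      Finset.card_erase_add_one h']
  · rw [if_neg h, if_neg h', Finset.erase_eq_of_notMem (a := e) h,
      Finset.erase_eq_of_notMem (a := f) h', add_zero, add_zero]

theorem dec_core {N : Finset (Finset (Fin n))} (hN : IsMat N) {r : ℕ} {L : Finset (Fin n)}
    (hL : L.card = r + 2) (hsub : N ⊆ Qk r L) {p : Fin n} (hp : p ∈ Zs N L) {a b c d : Fin n}
    (ha : a ∈ L) (hb : b ∈ L) (hc : c ∈ L) (hd : d ∈ L)
    (hab : Rel N L p a b) (hac : Rel N L p a c) (had : Rel N L p a d) (hbc : Rel N L p b c)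
    (hbd : Rel N L p b d) (hcd : Rel N L p c d) (hap : Rel N L p a p) (hbp : Rel N L p b p) :
    ∃ K, IsMatroidSubdivision (poly N) K ∧ poly N ∉ K := by
  classical
  have hpL := (mem_Zs.1 hp).1
  have hin : ∀ e ∈ L, e ∈ insert p L := fun e he => Finset.mem_insert_of_mem he
  have hpin : p ∈ insert p L := Finset.mem_insert_self _ _
  set A := L.filter (fun e => e = a ∨ e = b ∨ ¬ Rel N L p a e ∨ ¬ Rel N L p b e) with hAdef
  have hAL : A ⊆ L := Finset.filter_subset _ _
  have hpA : p ∉ A := fun h => hpL (hAL h)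
  have haA : a ∈ A := Finset.mem_filter.2 ⟨ha, Or.inl rfl⟩
  have hbA : b ∈ A := Finset.mem_filter.2 ⟨hb, Or.inr (Or.inl rfl)⟩
  have hcA : c ∉ A := by
    intro h
    rcases (Finset.mem_filter.1 h).2 with h | h | h | h
    · exact hac.1 h.symm
    · exact hbc.1 h.symm
    · exact h hac
    · exact h hbc
  have hdA : d ∉ A := by
    intro h
    rcases (Finset.mem_filter.1 h).2 with h | h | h | h
    · exact had.1 h.symm
    · exact hbd.1 h.symm
    · exact h had
    · exact h hbd
  have htr := rel_trans hN (L := L) (p := p)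
  -- points of `A` are not parallel to the other points
  have hA : ∀ x ∈ A, ∀ w ∈ insert p L, Rel N L p x w → ∀ y ∈ insert p L, y ∉ A →
      Rel N L p x y := by
    intro x hx w hw hxw y hy hyA
    have hy' : Rel N L p a y ∧ Rel N L p b y := by
      rcases Finset.mem_insert.1 hy with rfl | hyL
      · exact ⟨hap, hbp⟩
      · constructor
        · by_contra h; exact hyA (Finset.mem_filter.2 ⟨hyL, Or.inr (Or.inr (Or.inl h))⟩)
        · by_contra h; exact hyA (Finset.mem_filter.2 ⟨hyL, Or.inr (Or.inr (Or.inr h))⟩)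
    have hxy : x ≠ y := fun h => hyA (h ▸ hx)
    obtain ⟨hxL, h⟩ := Finset.mem_filter.1 hx
    by_cases hxa : x = a
    · subst hxa; exact hy'.1
    by_cases hxb : x = b
    · subst hxb; exact hy'.2
    rcases h with h | h | h | h
    · exact absurd h hxa
    · exact absurd h hxb
    · rcases htr a (hin a ha) y hy x (hin x hxL) w hw hy'.1.1 hxw.1 hxa hxy hy'.1 hxw with h3 | h3
      · exact absurd h3 h
      · exact rel_symm _ _ h3
    · rcases htr b (hin b hb) y hy x (hin x hxL) w hw hy'.2.1 hxw.1 hxb hxy hy'.2 hxw with h3 | h3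
      · exact absurd h3 h
      · exact rel_symm _ _ h3
  have hA2 : 2 ≤ A.card := by
    have : ({a, b} : Finset (Fin n)).card ≤ A.card := by
      apply Finset.card_le_card
      intro i hi
      simp only [Finset.mem_insert, Finset.mem_singleton] at hi
      rcases hi with rfl | rfl <;> assumption
    rwa [Finset.card_pair hab.1] at this
  obtain ⟨q, hq⟩ : ∃ q, A.card = q + 1 := ⟨A.card - 1, by omega⟩
  have hZ : ∀ z ∈ Zs N L, z ∉ L := fun z hz => (mem_Zs.1 hz).1
  have hstr := structure_PF hN hL hsub hp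
  -- two bases
  have hB1 : insert p ((L.erase a).erase b) ∈ N := by
    have := hab.2
    rwa [er2 hpL ha hb] at this
  have hB2 : insert p ((L.erase c).erase d) ∈ N := by
    have := hcd.2
    rwa [er2 hpL hc hd] at this
  have hB3 : insert p ((L.erase a).erase c) ∈ N := by
    have := hac.2
    rwa [er2 hpL ha hc] at this
  have k1 := cardA2 (A := A) hAL hpL hab.1
  have k2 := cardA2 (A := A) hAL hpL hcd.1
  have k3 := cardA2 (A := A) hAL hpL hac.1
  rw [if_pos haA, if_pos hbA] at k1
  rw [if_neg hcA, if_neg hdA] at k2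
  rw [if_pos haA, if_neg hcA] at k3
  refine split_subdivision hN hq ?_ ?_ ?_ ⟨_, hB1, by omega⟩ ⟨_, hB2, by omega⟩
  · intro B hB
    rcases (hstr B).1 hB with ⟨e, he, _, rfl⟩ | ⟨e, he, f, hf, hef, _, z, hz, rfl⟩
    · have := cardA1 hAL he
      split_ifs at this <;> omega
    · have := cardA2 (A := A) hAL (hZ z hz) hef
      split_ifs at this <;> omega
  · -- at most `q`
    refine isMat_PF (L := L) (Z := Zs N L) (p := p)
      (R := fun x y => Rel N L p x y ∧ (x ∈ A ∨ y ∈ A)) hZ hpL ?_ ?_
      ⟨_, Finset.mem_filter.2 ⟨hB1, by omega⟩⟩ ?_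
    · rintro x y ⟨h1, h2⟩
      exact ⟨rel_symm _ _ h1, h2.symm⟩
    · rintro x hx y hy z hz w hw hxy hzw hzx hzy ⟨h1, h2⟩ ⟨h3, h4⟩
      by_cases hzA : z ∈ A
      · rcases htr x hx y hy z hz w hw hxy hzw hzx hzy h1 h3 with h | h
        · exact Or.inl ⟨h, Or.inr hzA⟩
        · exact Or.inr ⟨h, Or.inr hzA⟩
      · rcases h2 with h2 | h2
        · exact Or.inl ⟨hA x h2 y hy h1 z hz hzA, Or.inl h2⟩
        · exact Or.inr ⟨hA y h2 x hx (rel_symm _ _ h1) z hz hzA, Or.inl h2⟩
    · intro B
      rw [Finset.mem_filter, hstr B]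
      constructor
      · rintro ⟨⟨e, he, hR, rfl⟩ | ⟨e, he, f, hf, hef, hR, z, hz, rfl⟩, hle⟩
        · left
          refine ⟨e, he, ⟨hR, ?_⟩, rfl⟩
          have := cardA1 hAL he
          by_contra h
          push Not at h
          rw [if_neg h.1] at this
          omega
        · right
          refine ⟨e, he, f, hf, hef, ⟨hR, ?_⟩, z, hz, rfl⟩
          have := cardA2 (A := A) hAL (hZ z hz) hef
          by_contra h
          push Not at h
          rw [if_neg h.1, if_neg h.2] at this
          omega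
      · rintro (⟨e, he, ⟨hR, h⟩, rfl⟩ | ⟨e, he, f, hf, hef, ⟨hR, h⟩, z, hz, rfl⟩)
        · refine ⟨Or.inl ⟨e, he, hR, rfl⟩, ?_⟩
          have := cardA1 hAL he
          have heA : e ∈ A := by
            rcases h with h | h
            · exact h
            · exact absurd h hpA
          rw [if_pos heA] at this
          omega
        · refine ⟨Or.inr ⟨e, he, f, hf, hef, hR, z, hz, rfl⟩, ?_⟩
          have := cardA2 (A := A) hAL (hZ z hz) hef
          rcases h with h | h
          · rw [if_pos h] at this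
            split_ifs at this <;> omega
          · rw [if_pos h] at this
            split_ifs at this <;> omega
  · -- at least `q`
    refine isMat_PF (L := L) (Z := Zs N L) (p := p)
      (R := fun x y => Rel N L p x y ∧ ¬ (x ∈ A ∧ y ∈ A)) hZ hpL ?_ ?_
      ⟨_, Finset.mem_filter.2 ⟨hB2, by omega⟩⟩ ?_
    · rintro x y ⟨h1, h2⟩
      exact ⟨rel_symm _ _ h1, fun h => h2 h.symm⟩
    · rintro x hx y hy z hz w hw hxy hzw hzx hzy ⟨h1, h2⟩ ⟨h3, h4⟩
      by_cases hzA : z ∈ A
      · by_cases hxA : x ∈ A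
        · have hyA : y ∉ A := fun h => h2 ⟨hxA, h⟩
          exact Or.inr ⟨rel_symm _ _ (hA z hzA w hw h3 y hy hyA), fun h => hyA h.1⟩
        · exact Or.inl ⟨rel_symm _ _ (hA z hzA w hw h3 x hx hxA), fun h => hxA h.1⟩
      · rcases htr x hx y hy z hz w hw hxy hzw hzx hzy h1 h3 with h | h
        · exact Or.inl ⟨h, fun h' => hzA h'.2⟩
        · exact Or.inr ⟨h, fun h' => hzA h'.2⟩
    · intro B
      rw [Finset.mem_filter, hstr B]
      constructor
      · rintro ⟨⟨e, he, hR, rfl⟩ | ⟨e, he, f, hf, hef, hR, z, hz, rfl⟩, hle⟩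
        · left
          exact ⟨e, he, ⟨hR, fun h => hpA h.2⟩, rfl⟩
        · right
          refine ⟨e, he, f, hf, hef, ⟨hR, ?_⟩, z, hz, rfl⟩
          have := cardA2 (A := A) hAL (hZ z hz) hef
          rintro ⟨h1, h2⟩
          rw [if_pos h1, if_pos h2] at this
          omega
      · rintro (⟨e, he, ⟨hR, h⟩, rfl⟩ | ⟨e, he, f, hf, hef, ⟨hR, h⟩, z, hz, rfl⟩)
        · refine ⟨Or.inl ⟨e, he, hR, rfl⟩, ?_⟩
          have := cardA1 hAL he
          split_ifs at this <;> omega
        · refine ⟨Or.inr ⟨e, he, f, hf, hef, hR, z, hz, rfl⟩, ?_⟩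
          have := cardA2 (A := A) hAL (hZ z hz) hef
          by_cases h1 : e ∈ A
          · have h2 : f ∉ A := fun h2 => h ⟨h1, h2⟩
            rw [if_pos h1, if_neg h2] at this
            omega
          · rw [if_neg h1] at this
            split_ifs at this <;> omega

/-- the cells beyond the wall can be cut -/
theorem decomposes {N : Finset (Finset (Fin n))} (hN : IsMat N) {r : ℕ} {L : Finset (Fin n)}
    (hL : L.card = r + 2) (hsub : N ⊆ Qk r L) {p : Fin n} (hpL : p ∉ L) {a b c d : Fin n}
    (ha : a ∈ L) (hb : b ∈ L) (hc : c ∈ L) (hd : d ∈ L)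
    (hab : Rel N L p a b) (hac : Rel N L p a c) (had : Rel N L p a d) (hbc : Rel N L p b c)
    (hbd : Rel N L p b d) (hcd : Rel N L p c d) (hT : ∃ e ∈ L, L.erase e ∈ N) :
    ∃ K, IsMatroidSubdivision (poly N) K ∧ poly N ∉ K := by
  have hin : ∀ e ∈ L, e ∈ insert p L := fun e he => Finset.mem_insert_of_mem he
  have hpin : p ∈ insert p L := Finset.mem_insert_self _ _
  have hpne : ∀ e ∈ L, p ≠ e := fun e he h => hpL (h ▸ he)
  have hp : p ∈ Zs N L := by
    refine mem_Zs.2 ⟨hpL, _, hab.2, ?_⟩
    exact Finset.mem_erase.2 ⟨hpne b hb, Finset.mem_erase.2 ⟨hpne a ha, hpin⟩⟩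
  obtain ⟨e, he, heN⟩ := hT
  have hep : Rel N L p p e := by
    apply rel_symm
    exact ⟨(hpne e he).symm, by rw [er1 hpL]; exact heN⟩
  have key : ∀ x ∈ L, ∀ y ∈ L, Rel N L p x y → Rel N L p x p ∨ Rel N L p y p := by
    intro x hx y hy hxy
    exact rel_trans hN x (hin x hx) y (hin y hy) p hpin e (hin e he) hxy.1 (hpne e he)
      (hpne x hx) (hpne y hy) hxy hep
  have hba := rel_symm _ _ hab
  have hca := rel_symm _ _ hac
  have hda := rel_symm _ _ had
  have hcb := rel_symm _ _ hbc
  have hdb := rel_symm _ _ hbd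
  have hdc := rel_symm _ _ hcd
  rcases key a ha b hb hab with h1 | h1 <;> rcases key c hc d hd hcd with h2 | h2
  · exact dec_core hN hL hsub hp ha hc hb hd hac hab had hcb hcd hbd h1 h2
  · exact dec_core hN hL hsub hp ha hd hb hc had hab hac hdb hdc hbc h1 h2
  · exact dec_core hN hL hsub hp hb hc ha hd hbc hba hbd hca hcd had h1 h2
  · exact dec_core hN hL hsub hp hb hd ha hc hbd hba hbc hda hdc hac h1 h2

end Pool.Agent.KS6_87.MS
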