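import Pool.Agent.KS6_87.MS.Main

set_option autoImplicit false

/-! Duality: the reflection `x ↦ 1 - x`. -/

namespace Pool.Agent.KS6_87.MS

open Set Pool.Agent.Q145.MS

variable {n : ℕ}

/-- the reflection -/
def fl (x : Fin n → ℝ) : Fin n → ℝ := fun i => 1 - x i

theorem fl_fl (x : Fin n → ℝ) : fl (fl x) = x := by
  funext i; simp [fl]

theorem fl_comb {a b : ℝ} (hab : a + b = 1) (x y : Fin n → ℝ) :
    fl (a • x + b • y) = a • fl x + b • fl y := by
  funext i
  simp only [fl, Pi.add_apply, Pi.smul_apply, smul_eq_mul]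
  linear_combination -hab

/-- the reflected set -/
def du (C : Set (Fin n → ℝ)) : Set (Fin n → ℝ) := fl ⁻¹' C

theorem mem_du {C : Set (Fin n → ℝ)} {x : Fin n → ℝ} : x ∈ du C ↔ fl x ∈ C := Iff.rfl

theorem du_du (C : Set (Fin n → ℝ)) : du (du C) = C := by
  ext x; rw [mem_du, mem_du, fl_fl]

theorem du_mono {C D : Set (Fin n → ℝ)} (h : C ⊆ D) : du C ⊆ du D := fun _ hx => h hx

theorem du_injective : Function.Injective (du (n := n)) := by
  intro C D h
  rw [← du_du C, h, du_du]

theorem fl_openSegment {x y z : Fin n → ℝ} (h : z ∈ openSegment ℝ x y) :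
    fl z ∈ openSegment ℝ (fl x) (fl y) := by
  obtain ⟨a, b, ha, hb, hab, rfl⟩ := h
  exact ⟨a, b, ha, hb, hab, (fl_comb hab x y).symm⟩

theorem face_du {P F : Set (Fin n → ℝ)} (h : IsFace P F) : IsFace (du P) (du F) := by
  obtain ⟨⟨x, hx⟩, hc, he⟩ := h
  refine ⟨⟨fl x, by rw [mem_du, fl_fl]; exact hx⟩, ?_, ⟨du_mono he.1, ?_⟩⟩
  · intro u hu v hv a b ha hb hab
    rw [mem_du, fl_comb hab]
    exact hc hu hv ha hb hab
  · intro u hu v hv z hz hzs
    exact he.2 (mem_du.1 hu) (mem_du.1 hv) (mem_du.1 hz) (fl_openSegment hzs)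

theorem face_du' {P F : Set (Fin n → ℝ)} (h : IsFace (du P) F) : IsFace P (du F) := by
  have := face_du h
  rwa [du_du] at this

theorem extreme_du {C : Set (Fin n → ℝ)} {x : Fin n → ℝ} (h : x ∈ extremePoints ℝ (du C)) :
    fl x ∈ extremePoints ℝ C := by
  rw [mem_extremePoints] at h ⊢
  refine ⟨h.1, ?_⟩
  intro u hu v hv hs
  have h1 := fl_openSegment hs
  rw [fl_fl] at h1
  have h2 := h.2 (fl u) (by rw [mem_du, fl_fl]; exact hu) (fl v) (by rw [mem_du, fl_fl]; exact hv)
    h1
  constructor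
  · rw [← h2.1, fl_fl]
  · rw [← h2.2, fl_fl]

theorem extreme_du' {C : Set (Fin n → ℝ)} {x : Fin n → ℝ} (h : fl x ∈ extremePoints ℝ C) :
    x ∈ extremePoints ℝ (du C) := by
  have := extreme_du (C := du C) (x := fl x) (by rw [du_du]; exact h)
  rwa [fl_fl] at this

theorem fl_ev (B : Finset (Fin n)) : fl (ev B) = ev Bᶜ := by
  funext i
  unfold fl ev
  by_cases h : i ∈ B <;> simp [h]

theorem poly_du_aux (F : Finset (Finset (Fin n))) : poly F ⊆ du (poly (F.image compl)) := by
  apply convexHull_min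
  · rintro _ ⟨B, hB, rfl⟩
    rw [mem_du, fl_ev]
    exact ev_mem_poly_of_mem (Finset.mem_image_of_mem _ (Finset.mem_coe.1 hB))
  · intro u hu v hv a b ha hb hab
    rw [mem_du, fl_comb hab]
    exact (convex_poly _) hu hv ha hb hab

theorem poly_du (F : Finset (Finset (Fin n))) : du (poly F) = poly (F.image compl) := by
  apply Subset.antisymm
  · have h := du_mono (poly_du_aux F)
    rwa [du_du] at h
  · have h := poly_du_aux (F.image compl)
    have e : (F.image compl).image compl = F := by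
      rw [Finset.image_image]
      simp
    rwa [e] at h

theorem isMat_compl {F : Finset (Finset (Fin n))} (hF : IsMat F) : IsMat (F.image compl) := by
  obtain ⟨N, hN, rfl⟩ := hF
  refine ⟨N✶, by rw [Matroid.dual_ground, hN], ?_⟩
  ext B
  rw [mem_bases, Matroid.dual_isBase_iff (by rw [hN]; exact subset_univ _), hN,
    Finset.mem_image]
  have e : (univ \ (B : Set (Fin n))) = ((Bᶜ : Finset (Fin n)) : Set (Fin n)) := by
    ext i; simp
  rw [e]
  constructor
  · intro h
    exact ⟨Bᶜ, mem_bases.2 h, by simp⟩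
  · rintro ⟨C, hC, rfl⟩
    rw [compl_compl]
    exact mem_bases.1 hC

/-- the reflected subdivision -/
def duK (K : Set (Set (Fin n → ℝ))) : Set (Set (Fin n → ℝ)) := {C | du C ∈ K}

theorem duK_duK (K : Set (Set (Fin n → ℝ))) : duK (duK K) = K := by
  ext C
  change du (du C) ∈ K ↔ C ∈ K
  rw [du_du]

theorem sub_du {P : Set (Fin n → ℝ)} {K : Set (Set (Fin n → ℝ))}
    (hK : IsMatroidSubdivision P K) : IsMatroidSubdivision (du P) (duK K) := by
  refine ⟨?_, ?_, ?_, ?_, ?_, ?_⟩
  · exact hK.finite.preimage du_injective.injOn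
  · intro C hC
    obtain ⟨F, hF, h⟩ := cell_eq hK (show du C ∈ K from hC)
    have h2 : C = poly (F.image compl) := by rw [← poly_du, ← h, du_du]
    rw [h2]
    exact isMatroidPolytope_poly (isMat_compl hF)
  · intro C hC F hF
    exact hK.face_mem _ hC _ (face_du hF)
  · intro C hC D hD hne
    have hne' : (du C ∩ du D).Nonempty := by
      obtain ⟨x, hx1, hx2⟩ := hne
      exact ⟨fl x, by rw [mem_du, fl_fl]; exact hx1, by rw [mem_du, fl_fl]; exact hx2⟩
    obtain ⟨h1, h2⟩ := hK.inter _ hC _ hD hne'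
    constructor
    · have := face_du h1
      rw [du_du] at this
      have e : du (du C ∩ du D) = C ∩ D := by
        change du (du (C ∩ D)) = _
        rw [du_du]
      rwa [e] at this
    · have := face_du h2
      rw [du_du] at this
      have e : du (du C ∩ du D) = C ∩ D := by
        change du (du (C ∩ D)) = _
        rw [du_du]
      rwa [e] at this
  · ext x
    constructor
    · rintro ⟨C, hC, hx⟩
      rw [mem_du, ← hK.cover]
      exact ⟨du C, hC, by rw [mem_du, fl_fl]; exact hx⟩
    · intro hx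
      rw [mem_du, ← hK.cover] at hx
      obtain ⟨C, hC, hx⟩ := hx
      exact ⟨du C, by change du (du C) ∈ K; rw [du_du]; exact hC, hx⟩
  · intro C hC x hx
    apply extreme_du'
    apply hK.vertices _ hC
    apply extreme_du (C := du C)
    rwa [du_du]

theorem refines_du {K K' : Set (Set (Fin n → ℝ))} (h : Refines K K') :
    Refines (duK K) (duK K') := by
  intro C hC
  obtain ⟨D, hD, hCD⟩ := h _ hC
  refine ⟨du D, by change du (du D) ∈ K'; rw [du_du]; exact hD, ?_⟩
  have := du_mono hCD
  rwa [du_du] at this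

theorem finest_du {P : Set (Fin n → ℝ)} {K : Set (Set (Fin n → ℝ))} (h : IsFinest P K) :
    IsFinest (du P) (duK K) := by
  refine ⟨sub_du h.1, ?_⟩
  intro K' hK' hr
  have h1 := sub_du hK'
  rw [du_du] at h1
  have h2 := refines_du hr
  rw [duK_duK] at h2
  rw [← h.2 _ h1 h2, duK_duK]

theorem maximal_du {K : Set (Set (Fin n → ℝ))} {C : Set (Fin n → ℝ)} (h : IsMaximalCell K C) :
    IsMaximalCell (duK K) (du C) := by
  refine ⟨by change du (du C) ∈ K; rw [du_du]; exact h.1, ?_⟩
  intro D hD hCD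
  have h1 := du_mono hCD
  rw [du_du] at h1
  rw [← h.2 _ hD h1, du_du]

theorem indec_du {P : Set (Fin n → ℝ)}
    (h : ∀ K, IsMatroidSubdivision (du P) K → K = {F | IsFace (du P) F}) :
    ∀ K, IsMatroidSubdivision P K → K = {F | IsFace P F} := by
  intro K hK
  have h1 := h _ (sub_du hK)
  rw [← duK_duK K, h1]
  ext F
  change IsFace (du P) (du F) ↔ IsFace P F
  constructor
  · intro h; have := face_du' h; rwa [du_du] at this
  · exact face_du

theorem hypersimplex_du {k m : ℕ} (h : k + m = n) :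
    du (hypersimplex k n) = hypersimplex m n := by
  rw [hypersimplex_eq, hypersimplex_eq, poly_du]
  congr 1
  ext B
  rw [Finset.mem_image, Finset.mem_powersetCard]
  constructor
  · rintro ⟨C, hC, rfl⟩
    rw [Finset.mem_powersetCard] at hC
    refine ⟨Finset.subset_univ _, ?_⟩
    rw [Finset.card_compl, Fintype.card_fin, hC.2]
    omega
  · rintro ⟨_, hB⟩
    refine ⟨Bᶜ, ?_, compl_compl B⟩
    rw [Finset.mem_powersetCard, Finset.card_compl, Fintype.card_fin, hB]
    exact ⟨Finset.subset_univ _, by omega⟩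

/-- the main theorem, with duality -/
theorem main' {k n : ℕ} (hk : 3 ≤ k) (hkn : k + 3 ≤ n) (hm : 6 ≤ k ∨ k + 6 ≤ n) :
    ∃ (K : Set (Set (Fin n → ℝ))) (C : Set (Fin n → ℝ)),
    IsFinest (hypersimplex k n) K ∧ IsMaximalCell K C ∧
    (∃ N : Matroid (Fin n), N.E = univ ∧ matroidPolytope N = C) ∧
    ∀ N : Matroid (Fin n), matroidPolytope N = C → ¬ Indecomposable N := by
  by_cases h6 : k + 6 ≤ n
  · exact main hk h6
  · have hk6 : 6 ≤ k := by
      rcases hm with h | h
      · exact h
      · exact absurd h h6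
    obtain ⟨K, C, h1, h2, _, h4⟩ := main (k := n - k) (n := n) (by omega) (by omega)
    have h1' := finest_du h1
    rw [hypersimplex_du (m := k) (by omega)] at h1'
    refine ⟨duK K, du C, h1', maximal_du h2, ?_, ?_⟩
    · obtain ⟨N, hN, h⟩ := h1'.1.isMatroidPolytope (du C) (maximal_du h2).1
      exact ⟨N, hN, h.symm⟩
    · intro N hN hind
      obtain ⟨N', _, hN'⟩ := h1.1.isMatroidPolytope C h2.1
      apply h4 N' hN'.symm
      unfold Indecomposable at hind ⊢
      rw [hN] at hind
      rw [← hN']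
      exact indec_du hind

end Pool.Agent.KS6_87.MS
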