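import Pool.Agent.KS6_87.MS.Dec
import Pool.Graph.R_pool_sql_team_seeded_3997aac3.Q145.MS.Final

set_option autoImplicit false

/-! Transporting the rigid matroid on nine points to larger hypersimplices. -/

namespace Pool.Agent.KS6_87.MS

open Set Pool.Agent.Q145.MS

variable {n : ℕ}

/-- the set `B` of points together with `S` -/
def lift (ι : Fin 9 → Fin n) (S : Finset (Fin n)) (B : Finset (Fin 9)) : Finset (Fin n) :=
  B.image ι ∪ S

theorem mem_lift {ι : Fin 9 → Fin n} {S : Finset (Fin n)} {B : Finset (Fin 9)} {j : Fin n} :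
    j ∈ lift ι S B ↔ (∃ i ∈ B, ι i = j) ∨ j ∈ S := by
  simp [lift]

section
variable {ι : Fin 9 → Fin n} {S : Finset (Fin n)} (hι : Function.Injective ι)
  (hS : ∀ i, ι i ∉ S)

include hι hS

theorem ι_mem_lift {B : Finset (Fin 9)} {i : Fin 9} : ι i ∈ lift ι S B ↔ i ∈ B := by
  rw [mem_lift]
  constructor
  · rintro (⟨j, hj, h⟩ | h)
    · rwa [← hι h]
    · exact absurd h (hS i)
  · intro h; exact Or.inl ⟨i, h, rfl⟩

theorem card_lift (B : Finset (Fin 9)) : (lift ι S B).card = B.card + S.card := by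
  unfold lift
  rw [Finset.card_union_of_disjoint, Finset.card_image_of_injective _ hι]
  rw [Finset.disjoint_left]
  intro j hj
  obtain ⟨i, _, rfl⟩ := Finset.mem_image.1 hj
  exact hS i

theorem lift_inter (B C : Finset (Fin 9)) : lift ι S B ∩ lift ι S C = lift ι S (B ∩ C) := by
  ext j
  rw [Finset.mem_inter, mem_lift, mem_lift, mem_lift]
  constructor
  · rintro ⟨h1 | h1, h2 | h2⟩
    · obtain ⟨i, hi, rfl⟩ := h1
      obtain ⟨i', hi', h⟩ := h2
      rw [hι h] at hi'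
      exact Or.inl ⟨i, Finset.mem_inter.2 ⟨hi, hi'⟩, rfl⟩
    · exact Or.inr h2
    · exact Or.inr h1
    · exact Or.inr h1
  · rintro (⟨i, hi, rfl⟩ | h)
    · exact ⟨Or.inl ⟨i, (Finset.mem_inter.1 hi).1, rfl⟩, Or.inl ⟨i, (Finset.mem_inter.1 hi).2, rfl⟩⟩
    · exact ⟨Or.inr h, Or.inr h⟩

theorem lift_subset {B C : Finset (Fin 9)} : lift ι S B ⊆ lift ι S C ↔ B ⊆ C := by
  constructor
  · intro h i hi
    exact (ι_mem_lift hι hS).1 (h ((ι_mem_lift hι hS).2 hi))
  · intro h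
    exact Finset.union_subset_union_left (Finset.image_subset_image h)

theorem lift_injective : Function.Injective (lift ι S) := by
  intro B C h
  exact Finset.Subset.antisymm ((lift_subset hι hS).1 h.le) ((lift_subset hι hS).1 h.ge)

omit hι hS in
theorem insert_lift (B : Finset (Fin 9)) (x : Fin 9) :
    insert (ι x) (lift ι S B) = lift ι S (insert x B) := by
  unfold lift
  rw [Finset.image_insert, Finset.insert_union]

theorem erase_lift (B : Finset (Fin 9)) (x : Fin 9) :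
    (lift ι S B).erase (ι x) = lift ι S (B.erase x) := by
  ext j
  rw [Finset.mem_erase, mem_lift, mem_lift]
  constructor
  · rintro ⟨h, ⟨i, hi, rfl⟩ | h'⟩
    · exact Or.inl ⟨i, Finset.mem_erase.2 ⟨fun h' => h (by rw [h']), hi⟩, rfl⟩
    · exact Or.inr h'
  · rintro (⟨i, hi, rfl⟩ | h)
    · exact ⟨fun h => (Finset.ne_of_mem_erase hi) (hι h), Or.inl ⟨i, Finset.mem_of_mem_erase hi, rfl⟩⟩
    · exact ⟨fun h' => hS x (h' ▸ h), Or.inr h⟩

/-- the hyperplanes -/
theorem lines_lift : ∀ ℓ ∈ lines.image (lift ι S), ∀ m ∈ lines.image (lift ι S), ℓ ≠ m →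
    (ℓ ∩ m).card < 2 + S.card := by
  intro ℓ hℓ m hm hne
  obtain ⟨ℓ', hℓ', rfl⟩ := Finset.mem_image.1 hℓ
  obtain ⟨m', hm', rfl⟩ := Finset.mem_image.1 hm
  rw [lift_inter hι hS, card_lift hι hS]
  have := lines_inter ℓ' hℓ' m' hm' (fun h => hne (by rw [h]))
  omega

theorem lift_mem_Mk {B : Finset (Fin 9)} :
    lift ι S B ∈ Mk (2 + S.card) (lines.image (lift ι S)) ↔ B ∈ Mf lines := by
  rw [mem_Mk, mem_Mf, card_lift hι hS]
  constructor
  · rintro ⟨h1, h2⟩
    refine ⟨by omega, fun ℓ hℓ h => ?_⟩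
    exact h2 _ (Finset.mem_image_of_mem _ hℓ) ((lift_subset hι hS).2 h)
  · rintro ⟨h1, h2⟩
    refine ⟨by omega, fun ℓ hℓ h => ?_⟩
    obtain ⟨ℓ', hℓ', rfl⟩ := Finset.mem_image.1 hℓ
    exact h2 ℓ' hℓ' ((lift_subset hι hS).1 h)

theorem Mk_ne : (Mk (2 + S.card) (lines.image (lift ι S))).Nonempty := by
  obtain ⟨B, hB⟩ := Mf_ne
  exact ⟨_, (lift_mem_Mk hι hS).2 hB⟩

theorem Qk_ne : ∀ ℓ ∈ lines.image (lift ι S), (Qk (2 + S.card) ℓ).Nonempty := by
  intro ℓ hℓ
  obtain ⟨ℓ', hℓ', rfl⟩ := Finset.mem_image.1 hℓ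
  obtain ⟨B, hB⟩ := Qf_ne ℓ' hℓ'
  rw [mem_Qf] at hB
  refine ⟨lift ι S B, mem_Qk.2 ⟨?_, ?_⟩⟩
  · rw [card_lift hι hS]; omega
  · rw [lift_inter hι hS, card_lift hι hS]; omega

/-- the linear part of the embedding -/
noncomputable def lin (ι : Fin 9 → Fin n) : (Fin 9 → ℝ) →ₗ[ℝ] (Fin n → ℝ) :=
  ∑ i, (LinearMap.proj i : (Fin 9 → ℝ) →ₗ[ℝ] ℝ).smulRight (ev {ι i})

omit hι hS in
theorem lin_apply (x : Fin 9 → ℝ) : lin ι x = ∑ i, x i • ev {ι i} := by
  simp [lin]

/-- the embedding of the small space -/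
noncomputable def lv (ι : Fin 9 → Fin n) (S : Finset (Fin n)) (x : Fin 9 → ℝ) : Fin n → ℝ :=
  lin ι x + ev S

omit hS in
theorem lin_ι (x : Fin 9 → ℝ) (i : Fin 9) : lin ι x (ι i) = x i := by
  rw [lin_apply, Finset.sum_apply]
  simp only [Pi.smul_apply, ev, Finset.mem_singleton, smul_eq_mul, mul_ite, mul_one, mul_zero]
  rw [Finset.sum_eq_single i]
  · simp
  · intro j _ hj
    rw [if_neg (fun h => hj (hι h.symm))]
  · simp

omit hι hS in
theorem lin_zero (x : Fin 9 → ℝ) {j : Fin n} (hj : ∀ i, ι i ≠ j) : lin ι x j = 0 := by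
  rw [lin_apply, Finset.sum_apply]
  simp only [Pi.smul_apply, ev, Finset.mem_singleton, smul_eq_mul, mul_ite, mul_one, mul_zero]
  apply Finset.sum_eq_zero
  intro i _
  rw [if_neg (fun h => hj i h.symm)]

theorem lv_ι (x : Fin 9 → ℝ) (i : Fin 9) : lv ι S x (ι i) = x i := by
  unfold lv
  rw [Pi.add_apply, lin_ι hι, ev, if_neg (hS i), add_zero]

omit hι in
theorem lv_S (x : Fin 9 → ℝ) {j : Fin n} (hj : j ∈ S) : lv ι S x j = 1 := by
  unfold lv
  rw [Pi.add_apply, lin_zero x (fun i h => hS i (by rw [h]; exact hj)), ev, if_pos hj, zero_add]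

omit hι hS in
theorem lv_zero (x : Fin 9 → ℝ) {j : Fin n} (hj : ∀ i, ι i ≠ j) (hj' : j ∉ S) :
    lv ι S x j = 0 := by
  unfold lv
  rw [Pi.add_apply, lin_zero x hj, ev, if_neg hj', zero_add]

theorem lv_ev (B : Finset (Fin 9)) : lv ι S (ev B) = ev (lift ι S B) := by
  funext j
  by_cases h : ∃ i, ι i = j
  · obtain ⟨i, rfl⟩ := h
    rw [lv_ι hι hS]
    unfold ev
    simp only [ι_mem_lift hι hS]
  · push Not at h
    by_cases hj : j ∈ S
    · rw [lv_S hS _ hj, ev, if_pos (mem_lift.2 (Or.inr hj))]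
    · rw [lv_zero _ h hj, ev, if_neg]
      rw [mem_lift]
      rintro (⟨i, _, h'⟩ | h')
      · exact h i h'
      · exact hj h'

omit hι hS in
theorem lv_comb {a b : ℝ} (hab : a + b = 1) (x y : Fin 9 → ℝ) :
    lv ι S (a • x + b • y) = a • lv ι S x + b • lv ι S y := by
  unfold lv
  rw [map_add, map_smul, map_smul, smul_add, smul_add]
  have : a • ev S + b • ev S = ev S := by rw [← add_smul, hab, one_smul]
  calc a • lin ι x + b • lin ι y + ev S
      = a • lin ι x + b • lin ι y + (a • ev S + b • ev S) := by rw [this]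
    _ = _ := by abel

theorem lv_mem {F : Finset (Finset (Fin 9))} {x : Fin 9 → ℝ} (hx : x ∈ poly F) :
    lv ι S x ∈ poly (F.image (lift ι S)) := by
  have : poly F ⊆ {x | lv ι S x ∈ poly (F.image (lift ι S))} := by
    apply convexHull_min
    · rintro _ ⟨B, hB, rfl⟩
      simp only [Set.mem_ofPred_eq]
      rw [lv_ev hι hS]
      exact ev_mem_poly_of_mem (Finset.mem_image_of_mem _ (Finset.mem_coe.1 hB))
    · intro x hx y hy a b ha hb hab
      simp only [Set.mem_ofPred_eq] at hx hy ⊢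
      rw [lv_comb hab]
      exact (convex_poly _) hx hy ha hb hab
  exact this hx

theorem lv_sum {F : Finset (Finset (Fin 9))} {w : Finset (Fin 9) → ℝ}
    (hw : ∑ B ∈ F, w B = 1) :
    lv ι S (∑ B ∈ F, w B • ev B) = ∑ B ∈ F, w B • ev (lift ι S B) := by
  unfold lv
  rw [map_sum]
  have h1 : ∀ B ∈ F, w B • ev (lift ι S B) = lin ι (w B • ev B) + w B • ev S := by
    intro B _
    rw [← lv_ev hι hS, lv, smul_add, map_smul]
  rw [Finset.sum_congr rfl h1, Finset.sum_add_distrib, ← Finset.sum_smul, hw, one_smul]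

theorem sm_lv (ℓ : Finset (Fin 9)) (x : Fin 9 → ℝ) :
    sm (lift ι S ℓ) (lv ι S x) = sm ℓ x + S.card := by
  rw [sm_apply, sm_apply]
  unfold lift
  rw [Finset.sum_union, Finset.sum_image (fun a _ b _ h => hι h)]
  · congr 1
    · exact Finset.sum_congr rfl (fun i _ => lv_ι hι hS x i)
    · rw [Finset.sum_congr rfl (fun j hj => lv_S hS x hj)]
      simp
  · rw [Finset.disjoint_left]
    intro j hj
    obtain ⟨i, _, rfl⟩ := Finset.mem_image.1 hj
    exact hS i

omit hι hS in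
theorem continuous_lv : Continuous (lv ι S) := by
  unfold lv
  exact (LinearMap.continuous_of_finiteDimensional (lin ι)).add continuous_const

end

end Pool.Agent.KS6_87.MS
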