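import Pool.Agent.KS6_87.MS.Lift

set_option autoImplicit false

/-! Finest subdivisions of hypersimplices with a decomposable maximal cell. -/

namespace Pool.Agent.KS6_87.MS

open Set Pool.Agent.Q145.MS

variable {n : ℕ}

section
variable {ι : Fin 9 → Fin n} {S : Finset (Fin n)} (hι : Function.Injective ι)
  (hS : ∀ i, ι i ∉ S)

include hι hS

/-- every refinement of the paving subdivision contains the face of the rigid matroid -/
theorem rigid_cell {K : Set (Set (Fin n → ℝ))}
    (hKs : IsMatroidSubdivision (poly (Ks n (2 + S.card + 1))) K)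
    (href : Refines K {E | ∃ i : Option {ℓ // ℓ ∈ lines.image (lift ι S)},
      IsFace (poly (i.elim (Mk (2 + S.card) (lines.image (lift ι S)))
        (fun ℓ => Qk (2 + S.card) ℓ.1))) E}) :
    poly ((Mf lines).image (lift ι S)) ∈ K := by
  classical
  set c : Fin n → ℝ := lv ι S (fun _ => 1 / 3) with hcdef
  have hc : c ∈ poly (Ks n (2 + S.card + 1)) := by
    refine poly_mono ?_ (lv_mem hι hS c0_mem)
    intro B hB
    obtain ⟨B', hB', rfl⟩ := Finset.mem_image.1 hB
    rw [mem_Ks, card_lift hι hS, mem_Tri.1 hB']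
    omega
  rw [← hKs.cover] at hc
  obtain ⟨C, hC, hcC⟩ := hc
  obtain ⟨D, ⟨i, hi⟩, hCD⟩ := href C hC
  have hCi := hCD.trans hi.2.2.1
  have hCM : C ⊆ poly (Mk (2 + S.card) (lines.image (lift ι S))) := by
    rcases i with _ | ⟨ℓ, hℓ⟩
    · exact hCi
    · exfalso
      simp only [Option.elim] at hCi
      obtain ⟨ℓ', hℓ', rfl⟩ := Finset.mem_image.1 hℓ
      have h1 : ((2 + S.card : ℕ) : ℝ) ≤ sm (lift ι S ℓ') c :=
        le_sm (fun B hB => (mem_Qk.1 hB).2) (hCi hcC)
      rw [hcdef, sm_lv hι hS, sm_apply, Finset.sum_const, nsmul_eq_mul] at h1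
      have h2 : (ℓ'.card : ℝ) ≤ 4 := by exact_mod_cast lines_card ℓ' hℓ'
      push_cast at h1
      linarith
  -- the face
  set T : Finset (Fin n) := (lift ι S Finset.univ)ᶜ with hT
  obtain ⟨G, hG, hCG⟩ := cell_eq hKs hC
  have hGM : G ⊆ Mk (2 + S.card) (lines.image (lift ι S)) := by
    rw [hCG] at hCM
    exact poly_subset_iff.1 hCM
  have hle : ∀ x ∈ C, (sm S - sm T) x ≤ S.card := by
    intro x hx
    rw [hCG] at hx
    apply lin_le _ _ hx
    intro B _
    rw [LinearMap.sub_apply, sm_ev, sm_ev]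
    have h1 : ((B ∩ S).card : ℝ) ≤ S.card := by
      exact_mod_cast Finset.card_le_card Finset.inter_subset_right
    have h2 : (0 : ℝ) ≤ (B ∩ T).card := by positivity
    linarith
  have hface : IsFace C {x | x ∈ C ∧ (sm S - sm T) x = S.card} := by
    refine ⟨⟨c, hcC, ?_⟩, ?_, ext_of_le _ _ hle⟩
    · rw [LinearMap.sub_apply, sm_apply, sm_apply,
        Finset.sum_congr rfl (fun j hj => lv_S hS (fun _ => 1 / 3) hj),
        Finset.sum_congr rfl (g := fun _ => (0 : ℝ)) (s₁ := T) (s₂ := T)]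
      · simp
      · intro j hj
        rw [hT, Finset.mem_compl, mem_lift] at hj
        push Not at hj
        exact lv_zero _ (fun i => hj.1 i (Finset.mem_univ i)) hj.2
    · intro x hx y hy a b ha hb hab
      refine ⟨?_, ?_⟩
      · have hconv : Convex ℝ C := by rw [hCG]; exact convex_poly G
        exact hconv hx.1 hy.1 ha hb hab
      · rw [map_add, map_smul, map_smul, hx.2, hy.2, smul_eq_mul, smul_eq_mul, ← add_mul, hab,
          one_mul]
  have hKface := hKs.face_mem C hC _ hface
  obtain ⟨F, hF, hFeq⟩ := cell_eq hKs hKface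
  have hcF : c ∈ poly F := by
    rw [← hFeq]
    exact ⟨hcC, by
      have := hface.1
      rw [LinearMap.sub_apply, sm_apply, sm_apply,
        Finset.sum_congr rfl (fun j hj => lv_S hS (fun _ => 1 / 3) hj),
        Finset.sum_congr rfl (g := fun _ => (0 : ℝ)) (s₁ := T) (s₂ := T)]
      · simp
      · intro j hj
        rw [hT, Finset.mem_compl, mem_lift] at hj
        push Not at hj
        exact lv_zero _ (fun i => hj.1 i (Finset.mem_univ i)) hj.2⟩
  have hFG : ∀ B ∈ F, B ∈ G ∧ (sm S - sm T) (ev B) = S.card := by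
    intro B hB
    have h1 : ev B ∈ poly F := ev_mem_poly_of_mem hB
    rw [← hFeq] at h1
    refine ⟨?_, h1.2⟩
    have h2 := h1.1
    rw [hCG] at h2
    exact ev_mem_poly_iff.1 h2
  have hshape : ∀ B ∈ F, ∃ B' : Finset (Fin 9), B = lift ι S B' := by
    intro B hB
    have h1 := (hFG B hB).2
    rw [LinearMap.sub_apply, sm_ev, sm_ev] at h1
    have h2 : (B ∩ S).card ≤ S.card := Finset.card_le_card Finset.inter_subset_right
    have h3 : (B ∩ S).card = S.card + (B ∩ T).card := by
      have : ((B ∩ S).card : ℝ) = S.card + (B ∩ T).card := by linarith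
      exact_mod_cast this
    have h4 : B ∩ S = S := Finset.eq_of_subset_of_card_le Finset.inter_subset_right (by omega)
    have h5 : B ∩ T = ∅ := Finset.card_eq_zero.1 (by omega)
    refine ⟨Finset.univ.filter (fun i => ι i ∈ B), ?_⟩
    ext j
    rw [mem_lift]
    constructor
    · intro hj
      have hjT : j ∉ T := by
        intro h
        have : j ∈ B ∩ T := Finset.mem_inter.2 ⟨hj, h⟩
        rw [h5] at this
        simp at this
      rw [hT, Finset.mem_compl, not_not, mem_lift] at hjT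
      rcases hjT with ⟨i, _, rfl⟩ | h
      · exact Or.inl ⟨i, by simpa using hj, rfl⟩
      · exact Or.inr h
    · rintro (⟨i, hi, rfl⟩ | h)
      · simpa using hi
      · exact Finset.inter_eq_right.1 h4 h
  -- the matroid on nine points
  set N' : Finset (Finset (Fin 9)) := Finset.univ.filter (fun B => lift ι S B ∈ F) with hN'
  have hmem : ∀ B, B ∈ N' ↔ lift ι S B ∈ F := by
    intro B; rw [hN', Finset.mem_filter]; simp
  have hN'mat : IsMat N' := by
    apply isMat_of_exchange
    · obtain ⟨B, hB⟩ := hF.nonempty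
      obtain ⟨B', rfl⟩ := hshape B hB
      exact ⟨B', (hmem B').2 hB⟩
    · intro A hA B hB x hxA hxB
      obtain ⟨y, hyB, hyA, h1, _⟩ := hF.symm ((hmem A).1 hA) ((hmem B).1 hB)
        ((ι_mem_lift hι hS).2 hxA) (fun h => hxB ((ι_mem_lift hι hS).1 h))
      rcases mem_lift.1 hyB with ⟨y', hy', rfl⟩ | h
      · refine ⟨y', hy', fun h => hyA ((ι_mem_lift hι hS).2 h), ?_⟩
        rw [hmem, ← insert_lift, ← erase_lift hι hS]
        exact h1
      · exact absurd (mem_lift.2 (Or.inr h)) hyA
  have hN'sub : N' ⊆ Mf lines := by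
    intro B hB
    exact (lift_mem_Mk hι hS).1 (hGM (hFG _ ((hmem B).1 hB)).1)
  have hN'c : (fun _ => 1 / 3 : Fin 9 → ℝ) ∈ poly N' := by
    have hsub : poly F ⊆ {y : Fin n → ℝ | (fun i => y (ι i)) ∈ poly N'} := by
      apply convexHull_min
      · rintro _ ⟨B, hB, rfl⟩
        obtain ⟨B', rfl⟩ := hshape B (Finset.mem_coe.1 hB)
        have : (fun i => ev (lift ι S B') (ι i)) = ev B' := by
          funext i
          unfold ev
          simp only [ι_mem_lift hι hS]
        simp only [Set.mem_ofPred_eq]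
        rw [this]
        exact ev_mem_poly_of_mem ((hmem B').2 (Finset.mem_coe.1 hB))
      · intro x hx y hy a b ha hb hab
        simp only [Set.mem_ofPred_eq] at hx hy ⊢
        exact (convex_poly _) hx hy ha hb hab
    have := hsub hcF
    simp only [Set.mem_ofPred_eq] at this
    convert this using 1
    funext i
    rw [hcdef, lv_ι hι hS]
  have hN'eq := rigid hN'mat hN'sub hN'c
  have hFimg : F = (Mf lines).image (lift ι S) := by
    rw [← hN'eq]
    ext B
    rw [Finset.mem_image]
    constructor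
    · intro hB
      obtain ⟨B', rfl⟩ := hshape B hB
      exact ⟨B', (hmem B').2 hB, rfl⟩
    · rintro ⟨B', hB', rfl⟩
      exact (hmem B').1 hB'
  rw [← hFimg, ← hFeq]
  exact hKface

/-- the segment from the centre of the facet into the other side -/
theorem core : ∃ (K : Set (Set (Fin n → ℝ))) (C : Set (Fin n → ℝ)),
    IsFinest (hypersimplex (3 + S.card) n) K ∧ IsMaximalCell K C ∧
    (∃ N : Matroid (Fin n), N.E = univ ∧ matroidPolytope N = C) ∧
    ∀ N : Matroid (Fin n), matroidPolytope N = C → ¬ Indecomposable N := by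
  classical
  have hks : 3 + S.card = 2 + S.card + 1 := by omega
  rw [hypersimplex_eq, hks]
  obtain ⟨K, hK, href⟩ := exists_finest (paving_subdivision (2 + S.card)
    (lines.image (lift ι S)) (lines_lift hι hS) (Mk_ne hι hS) (Qk_ne hι hS))
  have hKs := hK.1
  have hMK := rigid_cell hι hS hKs href
  set M := (Mf lines).image (lift ι S) with hM
  set r := 2 + S.card with hr
  have hz0M : lv ι S z0 ∈ poly M := lv_mem hι hS z0_mem
  have hcont : Continuous (fun t : ℝ => lv ι S (zt t)) := continuous_lv.comp continuous_zt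
  obtain ⟨t, ht0, ht1, hU⟩ : ∃ t : ℝ, 0 < t ∧ t ≤ 1 ∧
      ∀ C ∈ K, lv ι S (zt t) ∈ C → lv ι S z0 ∈ C := by
    have hfin : {C | C ∈ K ∧ lv ι S z0 ∉ C}.Finite := hKs.finite.subset (fun C hC => hC.1)
    have hclosed : IsClosed (⋃ C ∈ {C | C ∈ K ∧ lv ι S z0 ∉ C}, C) := by
      apply hfin.isClosed_biUnion
      rintro C ⟨hC, _⟩
      obtain ⟨N, _, rfl⟩ := cell_eq hKs hC
      exact isClosed_poly N
    have hz : lv ι S z0 ∉ ⋃ C ∈ {C | C ∈ K ∧ lv ι S z0 ∉ C}, C := by
      simp only [mem_iUnion, not_exists]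
      rintro C ⟨_, hC⟩ h
      exact hC h
    have hopen := hclosed.isOpen_compl
    have hpre : IsOpen ((fun t : ℝ => lv ι S (zt t)) ⁻¹'
      (⋃ C ∈ {C | C ∈ K ∧ lv ι S z0 ∉ C}, C)ᶜ) := hopen.preimage hcont
    have h0 : (0 : ℝ) ∈ (fun t : ℝ => lv ι S (zt t)) ⁻¹'
        (⋃ C ∈ {C | C ∈ K ∧ lv ι S z0 ∉ C}, C)ᶜ := by
      have : zt 0 = z0 := by simp [zt]
      rw [mem_preimage, this]
      exact hz
    obtain ⟨ε, hε, hball⟩ := Metric.isOpen_iff.1 hpre 0 h0
    refine ⟨min (ε / 2) 1, by positivity, min_le_right _ _, ?_⟩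
    have hmem : min (ε / 2) 1 ∈ Metric.ball (0 : ℝ) ε := by
      rw [Metric.mem_ball, Real.dist_eq, sub_zero, abs_of_pos (by positivity)]
      have : min (ε / 2) 1 ≤ ε / 2 := min_le_left _ _
      linarith
    have hnot := hball hmem
    intro C hC hzC
    by_contra hcon
    apply hnot
    simp only [mem_iUnion]
    exact ⟨C, ⟨hC, hcon⟩, hzC⟩
  have hzt : lv ι S (zt t) ∈ poly (Ks n (r + 1)) := by
    refine poly_mono ?_ (lv_mem hι hS (zt_mem ht0.le ht1))
    intro B hB
    obtain ⟨B', hB', rfl⟩ := Finset.mem_image.1 hB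
    rw [mem_Ks, card_lift hι hS, mem_Tri.1 hB']
    omega
  rw [← hKs.cover] at hzt
  obtain ⟨C0, hC0, hzC0⟩ := hzt
  obtain ⟨C, hCmax, hC0C⟩ := exists_maximal hKs hC0
  have hzC : lv ι S (zt t) ∈ C := hC0C hzC0
  have hz0C : lv ι S z0 ∈ C := hU C hCmax.1 hzC
  obtain ⟨N, hN, hCN⟩ := cell_eq hKs hCmax.1
  obtain ⟨N', hN'E, hN'⟩ := hKs.isMatroidPolytope C hCmax.1
  obtain ⟨D, ⟨i, hi⟩, hCD⟩ := href C hCmax.1
  have hCi := hCD.trans hi.2.2.1
  -- the cell lies beyond the wall
  have hsub : N ⊆ Qk r (lift ι S L4) := by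
    rcases i with _ | ⟨ℓ, hℓ⟩
    · exfalso
      simp only [Option.elim] at hCi
      have h1 : sm (lift ι S L4) (lv ι S (zt t)) ≤ ((r : ℕ) : ℝ) := by
        apply sm_le _ (hCi hzC)
        intro B hB
        rw [mem_Mk] at hB
        by_contra hcon
        have h1 : B ∩ lift ι S L4 = B :=
          Finset.eq_of_subset_of_card_le Finset.inter_subset_left (by omega)
        exact hB.2 _ (Finset.mem_image_of_mem _ L4_mem) (Finset.inter_eq_left.1 h1)
      rw [sm_lv hι hS, sm_L4_zt, hr] at h1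
      push_cast at h1
      linarith
    · simp only [Option.elim] at hCi
      obtain ⟨ℓ', hℓ', rfl⟩ := Finset.mem_image.1 hℓ
      by_cases hℓL : ℓ' = L4
      · subst hℓL
        rw [hCN] at hCi
        exact poly_subset_iff.1 hCi
      · exfalso
        have h1 : ((r : ℕ) : ℝ) ≤ sm (lift ι S ℓ') (lv ι S (zt t)) :=
          le_sm (fun B hB => (mem_Qk.1 hB).2) (hCi hzC)
        have h2 := sm_other_zt ht0.le ht1 hℓ' hℓL
        rw [sm_lv hι hS, hr] at h1
        push_cast at h1
        linarith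
  -- it contains the face of the rigid matroid
  have hinj := lift_injective hι hS
  have hE2M : E2.image (lift ι S) ⊆ M := Finset.image_subset_image E2_sub_Mf
  have hE : ∀ B ∈ E2, lift ι S B ∈ N := by
    intro B hB
    have hne : (C ∩ poly M).Nonempty := ⟨lv ι S z0, hz0C, hz0M⟩
    have hface := (hKs.inter C hCmax.1 _ hMK hne).2
    have hz : lv ι S z0 ∈ C ∩ poly M := ⟨hz0C, hz0M⟩
    have hcard : (E2.image (lift ι S)).card = 30 := by
      rw [Finset.card_image_of_injective _ hinj, E2_card]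
    have hBC : ev (lift ι S B) ∈ C ∩ poly M := by
      refine ev_mem_of_weight hface.2.2
        (w := fun A => if A ∈ E2.image (lift ι S) then 1 / 30 else 0) ?_ ?_ ?_
        (hE2M (Finset.mem_image_of_mem _ hB)) ?_
      · intro A; by_cases hA : A ∈ E2.image (lift ι S)
        · simp only [if_pos hA]; norm_num
        · simp only [if_neg hA]; exact le_rfl
      · rw [Finset.sum_ite_mem, Finset.inter_eq_right.2 hE2M, Finset.sum_const, hcard]
        norm_num
      · have : ∑ A ∈ M, (if A ∈ E2.image (lift ι S) then (1 / 30 : ℝ) else 0) • ev A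
            = lv ι S z0 := by
          rw [z0_eq, lv_sum hι hS (by rw [Finset.sum_const, E2_card]; norm_num)]
          simp only [ite_smul, zero_smul]
          rw [Finset.sum_ite_mem, Finset.inter_eq_right.2 hE2M,
            Finset.sum_image (fun a _ b _ h => hinj h)]
        rw [this]; exact hz
      · simp only [if_pos (Finset.mem_image_of_mem (lift ι S) hB)]; norm_num
    rw [hCN] at hBC
    exact ev_mem_poly_iff.1 hBC.1
  have hLcard : (lift ι S L4).card = r + 2 := by
    have h4 : L4.card = 4 := by decide +kernel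
    rw [card_lift hι hS, h4]; omega
  have hT : ∃ e ∈ lift ι S L4, (lift ι S L4).erase e ∈ N := by
    by_contra hcon
    push Not at hcon
    have h1 : sm (lift ι S L4) (lv ι S (zt t)) ≤ ((r : ℕ) : ℝ) := by
      apply sm_le _ (F := N)
      · rw [← hCN]; exact hzC
      · intro B hB
        by_contra hgt
        have hBc := mem_Qk.1 (hsub hB)
        have h1 : B ∩ lift ι S L4 = B :=
          Finset.eq_of_subset_of_card_le Finset.inter_subset_left (by omega)
        have hBL : B ⊆ lift ι S L4 := Finset.inter_eq_left.1 h1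
        have h2 : (lift ι S L4 \ B).card = 1 := by
          rw [Finset.card_sdiff_of_subset hBL]; omega
        obtain ⟨e, he⟩ := Finset.card_eq_one.1 h2
        have heL : e ∈ lift ι S L4 \ B := by rw [he]; simp
        have hBe : B = (lift ι S L4).erase e := by
          rw [← Finset.sdiff_singleton_eq_erase, ← he, Finset.sdiff_sdiff_eq_self hBL]
        exact hcon e (Finset.mem_sdiff.1 heL).1 (hBe ▸ hB)
    rw [sm_lv hι hS, sm_L4_zt, hr] at h1
    push_cast at h1
    linarith
  have hp8 : ι 8 ∉ lift ι S L4 := by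
    rw [ι_mem_lift hι hS]
    decide +kernel
  have hL4 : ∀ i ∈ L4, ι i ∈ lift ι S L4 := fun i hi => (ι_mem_lift hι hS).2 hi
  have hRel : ∀ i ∈ L4, ∀ j ∈ L4, i ≠ j → Rel N (lift ι S L4) (ι 8) (ι i) (ι j) := by
    intro i hi j hj hij
    refine ⟨fun h => hij (hι h), ?_⟩
    rw [insert_lift, erase_lift hι hS, erase_lift hι hS]
    apply hE
    have : ∀ i ∈ L4, ∀ j ∈ L4, i ≠ j → ((insert 8 L4).erase i).erase j ∈ E2 := by
      decide +kernel
    exact this i hi j hj hij
  have m0 : (0 : Fin 9) ∈ L4 := by decide +kernel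
  have m1 : (1 : Fin 9) ∈ L4 := by decide +kernel
  have m2 : (2 : Fin 9) ∈ L4 := by decide +kernel
  have m3 : (3 : Fin 9) ∈ L4 := by decide +kernel
  obtain ⟨K', hK', hnot⟩ := decomposes hN hLcard hsub hp8 (hL4 0 m0) (hL4 1 m1) (hL4 2 m2)
    (hL4 3 m3) (hRel 0 m0 1 m1 (by decide)) (hRel 0 m0 2 m2 (by decide))
    (hRel 0 m0 3 m3 (by decide)) (hRel 1 m1 2 m2 (by decide)) (hRel 1 m1 3 m3 (by decide))
    (hRel 2 m2 3 m3 (by decide)) hT
  refine ⟨K, C, hK, hCmax, ⟨N', hN'E, hN'.symm⟩, ?_⟩
  intro N1 hN1 hind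
  have h1 : matroidPolytope N1 = poly N := by rw [hN1, hCN]
  have h2 := hind K' (by rw [h1]; exact hK')
  apply hnot
  rw [h2, h1]
  exact ⟨poly_nonempty hN.nonempty, convex_poly _, IsExtreme.refl ℝ _⟩

end

/-- the main theorem -/
theorem main {k n : ℕ} (hk : 3 ≤ k) (hkn : k + 6 ≤ n) :
    ∃ (K : Set (Set (Fin n → ℝ))) (C : Set (Fin n → ℝ)),
    IsFinest (hypersimplex k n) K ∧ IsMaximalCell K C ∧
    (∃ N : Matroid (Fin n), N.E = univ ∧ matroidPolytope N = C) ∧
    ∀ N : Matroid (Fin n), matroidPolytope N = C → ¬ Indecomposable N := by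
  have h9 : 9 ≤ n := by omega
  set ι : Fin 9 → Fin n := Fin.castLE h9 with hιdef
  have hι : Function.Injective ι := Fin.castLE_injective h9
  obtain ⟨S, hSsub, hScard⟩ : ∃ S ⊆ (Finset.univ.image ι)ᶜ, S.card = k - 3 := by
    apply Finset.exists_subset_card_eq
    rw [Finset.card_compl, Finset.card_image_of_injective _ hι]
    simp
    omega
  have hS : ∀ i, ι i ∉ S := by
    intro i hi
    have := hSsub hi
    rw [Finset.mem_compl] at this
    exact this (Finset.mem_image_of_mem _ (Finset.mem_univ i))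
  have := core hι hS
  rw [hScard] at this
  have e : 3 + (k - 3) = k := by omega
  rwa [e] at this

end Pool.Agent.KS6_87.MS
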