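import Pool.Graph.R_pool_sql_team_seeded_3997aac3.Q145.MS.Paving

set_option autoImplicit false

/-! Paving subdivisions of hypersimplices of every rank, and cuts of matroid polytopes. -/

namespace Pool.Agent.KS6_87.MS

open Set Pool.Agent.Q145.MS

variable {n : ℕ}

/-- the `k`-sets -/
abbrev Ks (n k : ℕ) : Finset (Finset (Fin n)) := Finset.powersetCard k Finset.univ

theorem mem_Ks {k : ℕ} {B : Finset (Fin n)} : B ∈ Ks n k ↔ B.card = k := by
  simp [Ks, Finset.mem_powersetCard]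

/-- the cell cut off by a hyperplane -/
def Qk (r : ℕ) (ℓ : Finset (Fin n)) : Finset (Finset (Fin n)) :=
  (Ks n (r + 1)).filter (fun B => r ≤ (B ∩ ℓ).card)

theorem mem_Qk {r : ℕ} {ℓ B : Finset (Fin n)} :
    B ∈ Qk r ℓ ↔ B.card = r + 1 ∧ r ≤ (B ∩ ℓ).card := by
  simp [Qk, mem_Ks, -Finset.mem_powersetCard]

theorem isMat_Qk (r : ℕ) (ℓ : Finset (Fin n)) (hne : (Qk r ℓ).Nonempty) : IsMat (Qk r ℓ) := by
  apply isMat_of_exchange hne
  intro A hA B hB x hxA hxB
  rw [mem_Qk] at hA hB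
  by_cases h : r ≤ ((A.erase x) ∩ ℓ).card
  · have h1 : ¬ B ⊆ A := by
      intro hBA
      have := Finset.eq_of_subset_of_card_le hBA (by rw [hA.1, hB.1])
      exact hxB (this ▸ hxA)
    obtain ⟨y, hyB, hyA⟩ := Finset.not_subset.1 h1
    refine ⟨y, hyB, hyA, mem_Qk.2 ⟨by rw [card_exch' hxA hyA, hA.1], h.trans ?_⟩⟩
    exact Finset.card_le_card (Finset.inter_subset_inter_right (Finset.subset_insert _ _))
  · have h1 : ¬ (B ∩ ℓ ⊆ (A.erase x) ∩ ℓ) := by
      intro hsub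
      have := Finset.card_le_card hsub
      omega
    obtain ⟨y, hyBl, hyA⟩ := Finset.not_subset.1 h1
    obtain ⟨hyB, hyl⟩ := Finset.mem_inter.1 hyBl
    have hyx : y ≠ x := fun h => hxB (h ▸ hyB)
    have hyA' : y ∉ A := fun h => hyA (Finset.mem_inter.2 ⟨Finset.mem_erase.2 ⟨hyx, h⟩, hyl⟩)
    refine ⟨y, hyB, hyA', mem_Qk.2 ⟨by rw [card_exch' hxA hyA', hA.1], ?_⟩⟩
    have h2 := card_exch (S := ℓ) hxA hyA'
    rw [if_pos hyl] at h2
    have : (if x ∈ ℓ then 1 else 0) ≤ 1 := by split_ifs <;> omega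
    omega

/-- the paving matroid with hyperplanes `ℒ` -/
def Mk (r : ℕ) (ℒ : Finset (Finset (Fin n))) : Finset (Finset (Fin n)) :=
  (Ks n (r + 1)).filter (fun B => ∀ ℓ ∈ ℒ, ¬ B ⊆ ℓ)

theorem mem_Mk {r : ℕ} {ℒ : Finset (Finset (Fin n))} {B : Finset (Fin n)} :
    B ∈ Mk r ℒ ↔ B.card = r + 1 ∧ ∀ ℓ ∈ ℒ, ¬ B ⊆ ℓ := by
  simp [Mk, mem_Ks, -Finset.mem_powersetCard]

theorem isMat_Mk (r : ℕ) (ℒ : Finset (Finset (Fin n)))
    (hℒ : ∀ ℓ ∈ ℒ, ∀ m ∈ ℒ, ℓ ≠ m → (ℓ ∩ m).card < r) (hne : (Mk r ℒ).Nonempty) :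
    IsMat (Mk r ℒ) := by
  apply isMat_of_exchange hne
  intro A hA B hB x hxA hxB
  rw [mem_Mk] at hA hB
  obtain ⟨hA1, hA3⟩ := hA
  obtain ⟨hB1, hB3⟩ := hB
  set P := A.erase x with hP
  have hPc : P.card = r := by rw [hP, Finset.card_erase_of_mem hxA, hA1]; omega
  have claim : ∃ y ∈ B, y ∉ P ∧ ∀ ℓ ∈ ℒ, ¬ insert y P ⊆ ℓ := by
    by_cases h : ∃ ℓ ∈ ℒ, P ⊆ ℓ
    · obtain ⟨ℓ, hℓ, hPℓ⟩ := h
      obtain ⟨y, hy, hyℓ⟩ := Finset.not_subset.1 (hB3 ℓ hℓ)
      refine ⟨y, hy, fun h2 => hyℓ (hPℓ h2), ?_⟩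
      intro m hm hsub
      by_cases hlm : ℓ = m
      · subst hlm
        exact hyℓ (hsub (Finset.mem_insert_self _ _))
      · have h2 : P ⊆ ℓ ∩ m := Finset.subset_inter hPℓ
          ((Finset.subset_insert _ _).trans hsub)
        have h3 := Finset.card_le_card h2
        have h4 := hℒ ℓ hℓ m hm hlm
        omega
    · push Not at h
      have h1 : ¬ B ⊆ P := by
        intro h2
        have := Finset.card_le_card h2
        omega
      obtain ⟨y, hy, hyP⟩ := Finset.not_subset.1 h1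
      refine ⟨y, hy, hyP, ?_⟩
      intro m hm hsub
      exact h m hm ((Finset.subset_insert _ _).trans hsub)
  obtain ⟨y, hyB, hyP, hyℒ⟩ := claim
  have hyA : y ∉ A := by
    intro hyA
    have hyx : y ≠ x := fun h => hxB (h ▸ hyB)
    exact hyP (Finset.mem_erase.2 ⟨hyx, hyA⟩)
  exact ⟨y, hyB, hyA, mem_Mk.2 ⟨by rw [hP, card_exch' hxA hyA, hA1], hyℒ⟩⟩

theorem mem_poly_Qk {r : ℕ} {ℓ : Finset (Fin n)} {x : Fin n → ℝ} (hx : x ∈ poly (Ks n (r + 1)))
    (hs : (r : ℝ) ≤ sm ℓ x) : x ∈ poly (Qk r ℓ) := by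
  have := pot hx (fun B => r - (B ∩ ℓ).card) ?_
  · refine poly_mono ?_ this
    intro B hB
    rw [Finset.mem_filter] at hB
    rw [mem_Qk]
    exact ⟨mem_Ks.1 hB.1, by omega⟩
  · intro w hw B1 hB1 hw1 hφ
    obtain ⟨B2, hB2, hw2, hc2⟩ := exists_gt hw (S := ℓ) (c := r) (by exact_mod_cast hs) hB1 hw1
      (by omega)
    rw [mem_Ks] at hB1 hB2
    have h1 : B2 ∩ ℓ = B2 := Finset.eq_of_subset_of_card_le Finset.inter_subset_left (by omega)
    have hB2l : B2 ⊆ ℓ := Finset.inter_eq_left.1 h1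
    have h2 : ¬ B2 ⊆ B1 := by
      intro hsub
      have h3 : B2 ⊆ B1 ∩ ℓ := Finset.subset_inter hsub hB2l
      have := Finset.card_le_card h3
      omega
    obtain ⟨u, hu2, hu1⟩ := Finset.not_subset.1 h2
    have h3 : ¬ B1 ⊆ ℓ := by
      intro hsub
      rw [Finset.inter_eq_left.2 hsub] at hφ
      omega
    obtain ⟨v, hv1, hvl⟩ := Finset.not_subset.1 h3
    have hv2 : v ∉ B2 := fun h => hvl (hB2l h)
    refine ⟨B2, mem_Ks.2 hB2, hw2, insert u (B1.erase v),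
      mem_Ks.2 (by rw [card_exch' hv1 hu1, hB1]), insert v (B2.erase u),
      mem_Ks.2 (by rw [card_exch' hu2 hv2, hB2]), ev_exchange hv1 hv2 hu2 hu1, ?_⟩
    have e1 := card_exch (S := ℓ) hv1 hu1
    have e2 := card_exch (S := ℓ) hu2 hv2
    rw [if_neg hvl, if_pos (hB2l hu2)] at e1
    rw [if_neg hvl, if_pos (hB2l hu2)] at e2
    omega

theorem mem_poly_Mk {r : ℕ} {ℒ : Finset (Finset (Fin n))}
    (hℒ : ∀ ℓ ∈ ℒ, ∀ m ∈ ℒ, ℓ ≠ m → (ℓ ∩ m).card < r) {x : Fin n → ℝ}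
    (hx : x ∈ poly (Ks n (r + 1)))
    (hs : ∀ ℓ ∈ ℒ, sm ℓ x ≤ r) : x ∈ poly (Mk r ℒ) := by
  classical
  have := pot hx (fun B => if B ∈ Mk r ℒ then 0 else 1) ?_
  · refine poly_mono ?_ this
    intro B hB
    rw [Finset.mem_filter] at hB
    by_contra hn
    have := hB.2
    rw [if_neg hn] at this
    omega
  · intro w hw B1 hB1 hw1 hφ
    have hB1M : B1 ∉ Mk r ℒ := by
      intro h
      simp only [if_pos h] at hφ
      omega
    have hB1c := mem_Ks.1 hB1
    have hex : ∃ ℓ ∈ ℒ, B1 ⊆ ℓ := by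
      by_contra hcon
      push Not at hcon
      exact hB1M (mem_Mk.2 ⟨hB1c, hcon⟩)
    obtain ⟨ℓ, hℓ, hB1ℓ⟩ := hex
    obtain ⟨B2, hB2, hw2, hc2⟩ := exists_lt hw (S := ℓ) (c := r) (by exact_mod_cast hs ℓ hℓ) hB1 hw1
      (by rw [Finset.inter_eq_left.2 hB1ℓ]; omega)
    have hB2c := mem_Ks.1 hB2
    have h3 : ¬ B2 ⊆ ℓ := by
      intro hsub
      rw [Finset.inter_eq_left.2 hsub] at hc2
      omega
    obtain ⟨v, hv2, hvl⟩ := Finset.not_subset.1 h3
    have hv1 : v ∉ B1 := fun h => hvl (hB1ℓ h)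
    have hPc : (B2.erase v).card = r := by rw [Finset.card_erase_of_mem hv2, hB2c]; omega
    have hPl : ((B2.erase v) ∩ ℓ).card < r := by
      have : ((B2.erase v) ∩ ℓ).card ≤ (B2 ∩ ℓ).card :=
        Finset.card_le_card (Finset.inter_subset_inter_right (Finset.erase_subset _ _))
      omega
    have hu : ∃ u ∈ B1, u ∉ B2.erase v ∧ ∀ m ∈ ℒ, ¬ insert u (B2.erase v) ⊆ m := by
      by_cases h : ∃ m ∈ ℒ, B2.erase v ⊆ m
      · obtain ⟨m, hm, hPm⟩ := h
        have hml : ℓ ≠ m := by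
          rintro rfl
          rw [Finset.inter_eq_left.2 hPm] at hPl
          omega
        have h4 : ¬ B1 ⊆ m := by
          intro hsub
          have h5 : B1 ⊆ ℓ ∩ m := Finset.subset_inter hB1ℓ hsub
          have h6 := Finset.card_le_card h5
          have h7 := hℒ ℓ hℓ m hm hml
          omega
        obtain ⟨u, hu1, hum⟩ := Finset.not_subset.1 h4
        refine ⟨u, hu1, fun h => hum (hPm h), ?_⟩
        intro m' hm' hsub
        by_cases hmm : m = m'
        · subst hmm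
          exact hum (hsub (Finset.mem_insert_self _ _))
        · have h5 : B2.erase v ⊆ m ∩ m' := Finset.subset_inter hPm
            ((Finset.subset_insert _ _).trans hsub)
          have h6 := Finset.card_le_card h5
          have h7 := hℒ m hm m' hm' hmm
          omega
      · push Not at h
        have h4 : ¬ B1 ⊆ B2.erase v := by
          intro hsub
          have := Finset.card_le_card hsub
          omega
        obtain ⟨u, hu1, hu2⟩ := Finset.not_subset.1 h4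
        exact ⟨u, hu1, hu2, fun m hm hsub => h m hm ((Finset.subset_insert _ _).trans hsub)⟩
    obtain ⟨u, hu1, hu2, hum⟩ := hu
    have hu2' : u ∉ B2 := by
      intro h
      exact hu2 (Finset.mem_erase.2 ⟨fun h' => hv1 (h' ▸ hu1), h⟩)
    have hC1 : insert v (B1.erase u) ∈ Mk r ℒ := by
      rw [mem_Mk]
      refine ⟨by rw [card_exch' hu1 hv1, hB1c], ?_⟩
      intro m hm hsub
      have hml : ℓ ≠ m := by
        rintro rfl
        exact hvl (hsub (Finset.mem_insert_self _ _))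
      have h5 : B1.erase u ⊆ ℓ ∩ m := Finset.subset_inter
        ((Finset.erase_subset _ _).trans hB1ℓ) ((Finset.subset_insert _ _).trans hsub)
      have h6 := Finset.card_le_card h5
      have h7 := hℒ ℓ hℓ m hm hml
      rw [Finset.card_erase_of_mem hu1] at h6
      omega
    have hC2 : insert u (B2.erase v) ∈ Mk r ℒ := by
      rw [mem_Mk]
      exact ⟨by rw [card_exch' hv2 hu2', hB2c], hum⟩
    refine ⟨B2, hB2, hw2, insert v (B1.erase u), Finset.mem_of_mem_filter _ hC1,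
      insert u (B2.erase v), Finset.mem_of_mem_filter _ hC2, ev_exchange hu1 hu2' hv2 hv1, ?_⟩
    simp only [if_pos hC1, if_pos hC2, if_neg hB1M]
    split_ifs <;> omega

theorem Qk_inter_le {r : ℕ} {ℒ : Finset (Finset (Fin n))}
    (hℒ : ∀ ℓ ∈ ℒ, ∀ m ∈ ℒ, ℓ ≠ m → (ℓ ∩ m).card < r) {ℓ m : Finset (Fin n)} (hℓ : ℓ ∈ ℒ)
    (hm : m ∈ ℒ) (hlm : ℓ ≠ m) {x : Fin n → ℝ} (hx : x ∈ poly (Qk r ℓ)) : sm m x ≤ r := by
  apply sm_le _ hx
  intro B hB
  rw [mem_Qk] at hB
  by_contra hcon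
  have h1 : B ∩ m = B := Finset.eq_of_subset_of_card_le Finset.inter_subset_left (by omega)
  have h2 : B ∩ ℓ ⊆ ℓ ∩ m := Finset.subset_inter Finset.inter_subset_right
    (Finset.inter_subset_left.trans (Finset.inter_eq_left.1 h1))
  have h3 := Finset.card_le_card h2
  have h4 := hℒ ℓ hℓ m hm hlm
  omega

/-- the subdivision of `Δ(r+1,n)` attached to the hyperplanes of a paving matroid -/
theorem paving_subdivision (r : ℕ) (ℒ : Finset (Finset (Fin n)))
    (hℒ : ∀ ℓ ∈ ℒ, ∀ m ∈ ℒ, ℓ ≠ m → (ℓ ∩ m).card < r) (hM : (Mk r ℒ).Nonempty)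
    (hQ : ∀ ℓ ∈ ℒ, (Qk r ℓ).Nonempty) :
    IsMatroidSubdivision (poly (Ks n (r + 1)))
      {E | ∃ i : Option {ℓ // ℓ ∈ ℒ}, IsFace (poly (i.elim (Mk r ℒ) (fun ℓ => Qk r ℓ.1))) E} := by
  have hsubM : Mk r ℒ ⊆ Ks n (r + 1) := Finset.filter_subset _ _
  have hsubQ : ∀ ℓ : Finset (Fin n), Qk r ℓ ⊆ Ks n (r + 1) := fun ℓ => Finset.filter_subset _ _
  have hMle : ∀ ℓ ∈ ℒ, ∀ x ∈ poly (Mk r ℒ), sm ℓ x ≤ r := by
    intro ℓ hℓ x hx
    apply sm_le _ hx
    intro B hB
    rw [mem_Mk] at hB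
    by_contra hcon
    have h1 : B ∩ ℓ = B := Finset.eq_of_subset_of_card_le Finset.inter_subset_left (by omega)
    exact hB.2 ℓ hℓ (Finset.inter_eq_left.1 h1)
  have hQge : ∀ ℓ : Finset (Fin n), ∀ x ∈ poly (Qk r ℓ), (r : ℝ) ≤ sm ℓ x := by
    intro ℓ x hx
    exact le_sm (fun B hB => (mem_Qk.1 hB).2) hx
  refine build (fun i : Option {ℓ // ℓ ∈ ℒ} => i.elim (Mk r ℒ) (fun ℓ => Qk r ℓ.1))
    (Ks n (r + 1)) ?_ ?_ ?_ ?_
  · rintro (_ | ⟨ℓ, hℓ⟩)
    · exact isMat_Mk r ℒ hℒ hM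
    · exact isMat_Qk r ℓ (hQ ℓ hℓ)
  · rintro (_ | ⟨ℓ, hℓ⟩)
    · exact hsubM
    · exact hsubQ ℓ
  · intro x hx
    by_cases h : ∃ ℓ ∈ ℒ, (r : ℝ) ≤ sm ℓ x
    · obtain ⟨ℓ, hℓ, hs⟩ := h
      exact ⟨some ⟨ℓ, hℓ⟩, mem_poly_Qk hx hs⟩
    · push Not at h
      exact ⟨none, mem_poly_Mk hℒ hx (fun ℓ hℓ => (h ℓ hℓ).le)⟩
  · rintro (_ | ⟨ℓ, hℓ⟩) (_ | ⟨m, hm⟩) _
    · simp only [Option.elim, inter_self]
      exact IsExtreme.refl ℝ _
    · have e : poly (Mk r ℒ) ∩ poly (Qk r m) = {x | x ∈ poly (Mk r ℒ) ∧ sm m x = r} := by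
        apply Subset.antisymm
        · rintro x ⟨h1, h2⟩
          exact ⟨h1, le_antisymm (hMle m hm x h1) (hQge m x h2)⟩
        · rintro x ⟨h1, h2⟩
          exact ⟨h1, mem_poly_Qk (poly_mono hsubM h1) h2.ge⟩
      simp only [Option.elim]
      rw [e]
      exact ext_of_le (sm m) r (hMle m hm)
    · have e : poly (Qk r ℓ) ∩ poly (Mk r ℒ) = {x | x ∈ poly (Qk r ℓ) ∧ sm ℓ x = r} := by
        apply Subset.antisymm
        · rintro x ⟨h1, h2⟩
          exact ⟨h1, le_antisymm (hMle ℓ hℓ x h2) (hQge ℓ x h1)⟩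
        · rintro x ⟨h1, h2⟩
          refine ⟨h1, mem_poly_Mk hℒ (poly_mono (hsubQ ℓ) h1) ?_⟩
          intro m hm
          by_cases hlm : ℓ = m
          · subst hlm; exact h2.le
          · exact Qk_inter_le hℒ hℓ hm hlm h1
      simp only [Option.elim]
      rw [e]
      exact ext_of_ge (sm ℓ) r (hQge ℓ)
    · simp only [Option.elim]
      by_cases hlm : ℓ = m
      · subst hlm
        simp only [inter_self]
        exact IsExtreme.refl ℝ _
      · have e : poly (Qk r ℓ) ∩ poly (Qk r m) = {x | x ∈ poly (Qk r ℓ) ∧ sm m x = r} := by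
          apply Subset.antisymm
          · rintro x ⟨h1, h2⟩
            exact ⟨h1, le_antisymm (Qk_inter_le hℒ hℓ hm hlm h1) (hQge m x h2)⟩
          · rintro x ⟨h1, h2⟩
            exact ⟨h1, mem_poly_Qk (poly_mono (hsubQ ℓ) h1) h2.ge⟩
        rw [e]
        exact ext_of_le (sm m) r (fun x hx => Qk_inter_le hℒ hℓ hm hlm hx)

/-- cutting a matroid polytope by `x(S) = |S| - 1`, if all bases miss at most two elements
of `S` -/
theorem split_subdivision {N : Finset (Finset (Fin n))} {S : Finset (Fin n)} (hN : IsMat N)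
    {c : ℕ} (hS : S.card = c + 1) (hlow' : ∀ B ∈ N, c ≤ (B ∩ S).card + 1)
    (h1 : IsMat (N.filter (fun B => (B ∩ S).card ≤ c)))
    (h2 : IsMat (N.filter (fun B => c ≤ (B ∩ S).card)))
    (hlow : ∃ B ∈ N, (B ∩ S).card < c) (hhigh : ∃ B ∈ N, c < (B ∩ S).card) :
    ∃ K, IsMatroidSubdivision (poly N) K ∧ poly N ∉ K := by
  set N1 := N.filter (fun B => (B ∩ S).card ≤ c) with hN1
  set N2 := N.filter (fun B => c ≤ (B ∩ S).card) with hN2
  have hcS : ∀ B : Finset (Fin n), (B ∩ S).card ≤ c + 1 := by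
    intro B
    rw [← hS]
    exact Finset.card_le_card Finset.inter_subset_right
  have key : ∀ B1 ∈ N, ∀ B2 ∈ N, c < (B1 ∩ S).card → (B2 ∩ S).card < c →
      ∃ C1 ∈ N, ∃ C2 ∈ N, ev B1 + ev B2 = ev C1 + ev C2 ∧ (C1 ∩ S).card = c ∧
        (C2 ∩ S).card = c := by
    intro B1 hB1 B2 hB2 hc1 hc2
    have hSB : S ⊆ B1 := by
      have h := Finset.eq_of_subset_of_card_le (Finset.inter_subset_right : B1 ∩ S ⊆ S)
        (by omega)
      exact Finset.inter_eq_right.1 h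
    have hne : ¬ S ⊆ B2 := by
      intro h
      rw [Finset.inter_eq_right.2 h] at hc2
      omega
    obtain ⟨q, hqS, hq2⟩ := Finset.not_subset.1 hne
    have hq1 : q ∈ B1 := hSB hqS
    obtain ⟨y, hy2, hy1, hC1, hC2⟩ := hN.symm hB1 hB2 hq1 hq2
    have hyS : y ∉ S := fun h => hy1 (hSB h)
    have hb := hlow' B2 hB2
    have hb1 := hcS B1
    refine ⟨_, hC1, _, hC2, ev_exchange hq1 hq2 hy2 hy1, ?_, ?_⟩
    · have := card_exch (S := S) hq1 hy1
      rw [if_pos hqS, if_neg hyS] at this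
      omega
    · have := card_exch (S := S) hy2 hq2
      rw [if_pos hqS, if_neg hyS] at this
      omega
  have in1 : ∀ x ∈ poly N, sm S x ≤ c → x ∈ poly N1 := by
    intro x hx hs
    have := pot hx (fun B => (B ∩ S).card - c) ?_
    · refine poly_mono ?_ this
      intro B hB
      rw [Finset.mem_filter] at hB
      rw [hN1, Finset.mem_filter]
      exact ⟨hB.1, by omega⟩
    · intro w hw B1 hB1 hw1 hφ
      obtain ⟨B2, hB2, hw2, hc2⟩ := exists_lt hw (S := S) (c := c) (by exact_mod_cast hs) hB1 hw1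
        (by omega)
      have := hcS B1
      obtain ⟨C1, hC1, C2, hC2, hev, k1, k2⟩ := key B1 hB1 B2 hB2 (by omega) (by omega)
      refine ⟨B2, hB2, hw2, C1, hC1, C2, hC2, hev, ?_⟩
      omega
  have in2 : ∀ x ∈ poly N, (c : ℝ) ≤ sm S x → x ∈ poly N2 := by
    intro x hx hs
    have := pot hx (fun B => c - (B ∩ S).card) ?_
    · refine poly_mono ?_ this
      intro B hB
      rw [Finset.mem_filter] at hB
      rw [hN2, Finset.mem_filter]
      exact ⟨hB.1, by omega⟩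
    · intro w hw B1 hB1 hw1 hφ
      obtain ⟨B2, hB2, hw2, hc2⟩ := exists_gt hw (S := S) (c := c) (by exact_mod_cast hs) hB1 hw1
        (by omega)
      have := hcS B2
      obtain ⟨C1, hC1, C2, hC2, hev, k1, k2⟩ := key B2 hB2 B1 hB1 (by omega) (by omega)
      refine ⟨B2, hB2, hw2, C1, hC1, C2, hC2, by rw [add_comm]; exact hev, ?_⟩
      omega
  have le1 : ∀ x ∈ poly N1, sm S x ≤ c := by
    intro x hx
    exact sm_le (fun B hB => (Finset.mem_filter.1 hB).2) hx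
  have ge2 : ∀ x ∈ poly N2, (c : ℝ) ≤ sm S x := by
    intro x hx
    exact le_sm (fun B hB => (Finset.mem_filter.1 hB).2) hx
  have s1 : N1 ⊆ N := Finset.filter_subset _ _
  have s2 : N2 ⊆ N := Finset.filter_subset _ _
  refine ⟨{E | ∃ i : Bool, IsFace (poly (if i then N1 else N2)) E}, ?_, ?_⟩
  · refine build (fun i : Bool => if i then N1 else N2) N ?_ ?_ ?_ ?_
    · intro i; cases i <;> simp [h1, h2]
    · intro i; cases i <;> simp [s1, s2]
    · intro x hx
      by_cases h : sm S x ≤ c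
      · exact ⟨true, by simpa using in1 x hx h⟩
      · exact ⟨false, by simpa using in2 x hx (by linarith)⟩
    · intro i j _
      cases i <;> cases j
      · simp only [inter_self]; exact IsExtreme.refl ℝ _
      · have e : poly N2 ∩ poly N1 = {x | x ∈ poly N2 ∧ sm S x = c} := by
          apply Subset.antisymm
          · rintro x ⟨h3, h4⟩
            exact ⟨h3, le_antisymm (le1 x h4) (ge2 x h3)⟩
          · rintro x ⟨h3, h4⟩
            exact ⟨h3, in1 x (poly_mono s2 h3) h4.le⟩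
        simp only [Bool.false_eq_true, if_false, if_true]
        rw [e]
        exact ext_of_ge (sm S) c ge2
      · have e : poly N1 ∩ poly N2 = {x | x ∈ poly N1 ∧ sm S x = c} := by
          apply Subset.antisymm
          · rintro x ⟨h3, h4⟩
            exact ⟨h3, le_antisymm (le1 x h3) (ge2 x h4)⟩
          · rintro x ⟨h3, h4⟩
            exact ⟨h3, in2 x (poly_mono s1 h3) h4.ge⟩
        simp only [Bool.false_eq_true, if_false, if_true]
        rw [e]
        exact ext_of_le (sm S) c le1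
      · simp only [inter_self]; exact IsExtreme.refl ℝ _
  · rintro ⟨i, hi⟩
    have hsub := hi.2.2.1
    rw [poly_subset_iff] at hsub
    obtain ⟨B, hB, hBc⟩ := hlow
    obtain ⟨C, hC, hCc⟩ := hhigh
    cases i
    · have := hsub hB
      simp only [Bool.false_eq_true, if_false, hN2, Finset.mem_filter] at this
      omega
    · have := hsub hC
      simp only [if_true, hN1, Finset.mem_filter] at this
      omega

end Pool.Agent.KS6_87.MS
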