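import Pool.Agent.KS6_87.MS.Dual

set_option autoImplicit false

/-! Finest subdivisions of `Δ(2,n)`: all maximal cells are indecomposable. -/

namespace Pool.Agent.KS6_87.MS

open Set Pool.Agent.Q145.MS

variable {n : ℕ}

theorem triv_of_mem {P : Set (Fin n → ℝ)} {K : Set (Set (Fin n → ℝ))}
    (hK : IsMatroidSubdivision P K) (hP : P ∈ K) : K = {F | IsFace P F} := by
  apply Subset.antisymm
  · intro D hD
    have hDP : D ⊆ P := by rw [← hK.cover]; exact subset_sUnion_of_mem hD
    have e : D ∩ P = D := inter_eq_left.2 hDP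
    have h := (hK.inter D hD P hP (by rw [e]; exact cell_nonempty hK hD)).2
    rw [e] at h
    exact h
  · intro F hF
    exact hK.face_mem P hP F hF

/-- points in the relative interior -/
def Central (N : Finset (Finset (Fin n))) (x : Fin n → ℝ) : Prop :=
  x ∈ poly N ∧ ∀ E, IsExtreme ℝ (poly N) E → x ∈ E → ∀ B ∈ N, ev B ∈ E

theorem exists_central {N : Finset (Finset (Fin n))} (hN : N.Nonempty) : ∃ x, Central N x := by
  have hc : (0 : ℝ) < N.card := by exact_mod_cast Finset.card_pos.2 hN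
  have h1 : ∑ _B ∈ N, (1 / (N.card : ℝ)) = 1 := by
    rw [Finset.sum_const, nsmul_eq_mul]; field_simp
  refine ⟨∑ B ∈ N, (1 / (N.card : ℝ)) • ev B, ?_, ?_⟩
  · apply (convex_poly N).sum_mem
    · intro B _; positivity
    · exact h1
    · intro B hB; exact ev_mem_poly_of_mem hB
  · intro E hE hx B hB
    exact ev_mem_of_weight hE (w := fun _ => 1 / (N.card : ℝ)) (fun _ => by positivity) h1 hx hB
      (by positivity)

theorem ge_poly {F : Finset (Finset (Fin n))} {c : ℝ} (f : (Fin n → ℝ) →ₗ[ℝ] ℝ)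
    (h : ∀ B ∈ F, c ≤ f (ev B)) {x : Fin n → ℝ} (hx : x ∈ poly F) : c ≤ f x := by
  have := lin_le (c := -c) (-f) (fun B hB => by
    rw [LinearMap.neg_apply]; linarith [h B hB]) hx
  rw [LinearMap.neg_apply] at this
  linarith

theorem central_lin {N N' : Finset (Finset (Fin n))} {x : Fin n → ℝ} (hx : Central N x)
    (hx' : x ∈ poly N') (f : (Fin n → ℝ) →ₗ[ℝ] ℝ) (c : ℝ) (h1 : ∀ B ∈ N, c ≤ f (ev B))
    (h2 : ∀ B ∈ N', f (ev B) ≤ c) : ∀ B ∈ N, f (ev B) = c := by
  have h3 : f x ≤ c := lin_le f h2 hx'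
  have h4 : ∀ y ∈ poly N, c ≤ f y := fun y hy => ge_poly f h1 hy
  intro B hB
  exact (hx.2 _ (ext_of_ge f c h4) ⟨hx.1, le_antisymm h3 (h4 x hx.1)⟩ B hB).2

/-- rigid families are cells of every subdivision of their polytope -/
theorem indec_of_rigid {N : Finset (Finset (Fin n))} (hne : N.Nonempty)
    (h : ∀ x, Central N x → ∀ N', IsMat N' → N' ⊆ N → x ∈ poly N' → N' = N) :
    ∀ K, IsMatroidSubdivision (poly N) K → K = {F | IsFace (poly N) F} := by
  intro K hK
  obtain ⟨x, hx⟩ := exists_central hne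
  have hxK := hx.1
  rw [← hK.cover] at hxK
  obtain ⟨C, hC, hxC⟩ := hxK
  obtain ⟨N', hN', rfl⟩ := cell_eq hK hC
  have hsub : N' ⊆ N := by
    rw [← poly_subset_iff, ← hK.cover]
    exact subset_sUnion_of_mem hC
  have e := h x hx N' hN' hsub hxC
  rw [e] at hC
  exact triv_of_mem hK hC

/-- a maximal cell reaches in every direction -/
theorem purity {P : Set (Fin n → ℝ)} (hP : Convex ℝ P) {K : Set (Set (Fin n → ℝ))}
    (hK : IsMatroidSubdivision P K) {N : Finset (Finset (Fin n))}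
    (hmax : IsMaximalCell K (poly N)) {x u : Fin n → ℝ} (hx : Central N x) (hu : u ∈ P) :
    ∃ t : ℝ, 0 < t ∧ t ≤ 1 ∧ (1 - t) • x + t • u ∈ poly N := by
  have hxP : x ∈ P := by
    rw [← hK.cover]; exact ⟨_, hmax.1, hx.1⟩
  have hcont : Continuous (fun t : ℝ => (1 - t) • x + t • u) := by fun_prop
  obtain ⟨t, ht0, ht1, hU⟩ : ∃ t : ℝ, 0 < t ∧ t ≤ 1 ∧
      ∀ C ∈ K, (1 - t) • x + t • u ∈ C → x ∈ C := by
    have hfin : {C | C ∈ K ∧ x ∉ C}.Finite := hK.finite.subset (fun C hC => hC.1)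
    have hclosed : IsClosed (⋃ C ∈ {C | C ∈ K ∧ x ∉ C}, C) := by
      apply hfin.isClosed_biUnion
      rintro C ⟨hC, _⟩
      obtain ⟨N, _, rfl⟩ := cell_eq hK hC
      exact isClosed_poly N
    have hz : x ∉ ⋃ C ∈ {C | C ∈ K ∧ x ∉ C}, C := by
      simp only [mem_iUnion, not_exists]
      rintro C ⟨_, hC⟩ h
      exact hC h
    have hopen := hclosed.isOpen_compl
    have hpre : IsOpen ((fun t : ℝ => (1 - t) • x + t • u) ⁻¹'
      (⋃ C ∈ {C | C ∈ K ∧ x ∉ C}, C)ᶜ) := hopen.preimage hcont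
    have h0 : (0 : ℝ) ∈ (fun t : ℝ => (1 - t) • x + t • u) ⁻¹'
        (⋃ C ∈ {C | C ∈ K ∧ x ∉ C}, C)ᶜ := by
      have : (1 - (0 : ℝ)) • x + (0 : ℝ) • u = x := by simp
      rw [mem_preimage, this]
      exact hz
    obtain ⟨ε, hε, hball⟩ := Metric.isOpen_iff.1 hpre 0 h0
    refine ⟨min (ε / 2) 1, by positivity, min_le_right _ _, ?_⟩
    have hmem : min (ε / 2) 1 ∈ Metric.ball (0 : ℝ) ε := by
      rw [Metric.mem_ball, Real.dist_eq, sub_zero, abs_of_pos (by positivity)]
      have : min (ε / 2) 1 ≤ ε / 2 := min_le_left _ _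
      linarith
    have hnot := hball hmem
    intro C hC hzC
    by_contra hcon
    apply hnot
    simp only [mem_iUnion]
    exact ⟨C, ⟨hC, hcon⟩, hzC⟩
  refine ⟨t, ht0, ht1, ?_⟩
  have hzt : (1 - t) • x + t • u ∈ P := hP hxP hu (by linarith) ht0.le (by ring)
  rw [← hK.cover] at hzt
  obtain ⟨D0, hD0, hzD0⟩ := hzt
  obtain ⟨D, hDmax, hD0D⟩ := exists_maximal hK hD0
  have hxD : x ∈ D := hU D hDmax.1 (hD0D hzD0)
  have hface := (hK.inter _ hmax.1 _ hDmax.1 ⟨x, hx.1, hxD⟩).1
  have hall := hx.2 _ hface.2.2 ⟨hx.1, hxD⟩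
  have hsub : poly N ⊆ D := by
    apply convexHull_min
    · rintro _ ⟨B, hB, rfl⟩
      exact (hall B (Finset.mem_coe.1 hB)).2
    · obtain ⟨M, _, rfl⟩ := cell_eq hK hDmax.1
      exact convex_poly M
  rw [← hmax.2 D hDmax.1 hsub]
  exact hD0D hzD0

/-- `i`, `j` form a basis -/
def bs (N : Finset (Finset (Fin n))) (i j : Fin n) : Prop := ({i, j} : Finset (Fin n)) ∈ N

theorem bs_symm {N : Finset (Finset (Fin n))} {i j : Fin n} (h : bs N i j) : bs N j i := by
  unfold bs at h ⊢
  rwa [Finset.pair_comm]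

theorem bs_ne {N : Finset (Finset (Fin n))} (h2 : N ⊆ Ks n 2) {i j : Fin n} (h : bs N i j) :
    i ≠ j := by
  rintro rfl
  have := mem_Ks.1 (h2 h)
  simp at this

theorem pair_erase {u x : Fin n} (h : u ≠ x) : ({u, x} : Finset (Fin n)).erase x = {u} := by
  ext i; simp only [Finset.mem_erase, Finset.mem_insert, Finset.mem_singleton]; grind

theorem bs_tr {N : Finset (Finset (Fin n))} (hN : IsMat N) (h2 : N ⊆ Ks n 2) {i j k l : Fin n}
    (h1 : bs N i j) (h3 : bs N k l) : bs N i k ∨ bs N j k := by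
  by_cases hi : l = i
  · subst hi; exact Or.inl (bs_symm h3)
  by_cases hj : l = j
  · subst hj; exact Or.inr (bs_symm h3)
  obtain ⟨y, hy, _, hC, _⟩ := hN.symm h3 h1 (x := l) (by simp) (by simp [hi, hj])
  rw [pair_erase (bs_ne h2 h3)] at hC
  simp only [Finset.mem_insert, Finset.mem_singleton] at hy
  rcases hy with rfl | rfl
  · exact Or.inl hC
  · exact Or.inr hC

theorem isMat_R {R : Fin n → Fin n → Prop} (hs : ∀ i j, R i j → R j i) (hirr : ∀ i, ¬ R i i)
    (htr : ∀ i j k l, R i j → R k l → R i k ∨ R j k) {F : Finset (Finset (Fin n))}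
    (hne : F.Nonempty) (hF : ∀ B, B ∈ F ↔ ∃ i j, R i j ∧ B = {i, j}) : IsMat F := by
  apply isMat_of_exchange hne
  intro A hA B hB x hx hx'
  obtain ⟨k, l, hkl, rfl⟩ := (hF B).1 hB
  obtain ⟨u, hu, rfl⟩ : ∃ u, R u x ∧ A = {u, x} := by
    obtain ⟨i, j, hij, rfl⟩ := (hF A).1 hA
    simp only [Finset.mem_insert, Finset.mem_singleton] at hx
    rcases hx with rfl | rfl
    · exact ⟨j, hs _ _ hij, Finset.pair_comm _ _⟩
    · exact ⟨i, hij, rfl⟩
  have hux : u ≠ x := fun h => hirr x (h ▸ hu)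
  simp only [Finset.mem_insert, Finset.mem_singleton, not_or] at hx'
  rw [pair_erase hux]
  rcases htr k l u x hkl hu with h | h
  · refine ⟨k, by simp, ?_, (hF _).2 ⟨k, u, h, rfl⟩⟩
    simp only [Finset.mem_insert, Finset.mem_singleton, not_or]
    exact ⟨fun e => hirr u (e ▸ h), fun e => hx'.1 e.symm⟩
  · refine ⟨l, by simp, ?_, (hF _).2 ⟨l, u, h, rfl⟩⟩
    simp only [Finset.mem_insert, Finset.mem_singleton, not_or]
    exact ⟨fun e => hirr u (e ▸ h), fun e => hx'.2 e.symm⟩

theorem eq_pair {N : Finset (Finset (Fin n))} (h2 : N ⊆ Ks n 2) {B : Finset (Fin n)}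
    (hB : B ∈ N) : ∃ i j, bs N i j ∧ B = {i, j} := by
  obtain ⟨i, j, _, rfl⟩ := Finset.card_eq_two.1 (mem_Ks.1 (h2 hB))
  exact ⟨i, j, hB, rfl⟩

theorem card_pair_inter {i j : Fin n} (hij : i ≠ j) (S : Finset (Fin n)) :
    (({i, j} : Finset (Fin n)) ∩ S).card
      = (if i ∈ S then 1 else 0) + (if j ∈ S then 1 else 0) := by
  by_cases hi : i ∈ S <;> by_cases hj : j ∈ S
  · rw [Finset.inter_eq_left.2 (by intro x hx; simp at hx; rcases hx with rfl | rfl <;> assumption),
      Finset.card_pair hij]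
    simp [hi, hj]
  · have : ({i, j} : Finset (Fin n)) ∩ S = {i} := by
      ext x; simp only [Finset.mem_inter, Finset.mem_insert, Finset.mem_singleton]; grind
    rw [this]; simp [hi, hj]
  · have : ({i, j} : Finset (Fin n)) ∩ S = {j} := by
      ext x; simp only [Finset.mem_inter, Finset.mem_insert, Finset.mem_singleton]; grind
    rw [this]; simp [hi, hj]
  · have : ({i, j} : Finset (Fin n)) ∩ S = ∅ := by
      ext x; simp only [Finset.mem_inter, Finset.mem_insert, Finset.mem_singleton]; grind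
    rw [this]; simp [hi, hj]

/-- rank two matroids with at most three parallel classes are indecomposable -/
theorem indec_three {N : Finset (Finset (Fin n))} (hN : IsMat N) (h2 : N ⊆ Ks n 2)
    (h4 : ¬ ∃ a b p q, bs N a b ∧ bs N a p ∧ bs N a q ∧ bs N b p ∧ bs N b q ∧ bs N p q) :
    ∀ K, IsMatroidSubdivision (poly N) K → K = {F | IsFace (poly N) F} := by
  classical
  apply indec_of_rigid hN.nonempty
  intro x hx N' hN' hsub hxN'
  have h2' : N' ⊆ Ks n 2 := hsub.trans h2
  -- no new loops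
  have hloop : ∀ i j, bs N i j → ∃ l, bs N' i l := by
    intro i j hij
    by_contra hcon
    push Not at hcon
    have h := central_lin hx hxN' (sm {i}) 0 (fun B _ => by rw [sm_ev]; positivity)
      (fun B hB => by
        rw [sm_ev]
        obtain ⟨k, l, hkl, rfl⟩ := eq_pair h2' hB
        rw [card_pair_inter (bs_ne h2' hkl)]
        have h1 : k ∉ ({i} : Finset (Fin n)) := by
          rw [Finset.mem_singleton]; rintro rfl; exact hcon l hkl
        have h3 : l ∉ ({i} : Finset (Fin n)) := by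
          rw [Finset.mem_singleton]; rintro rfl; exact hcon k (bs_symm hkl)
        rw [if_neg h1, if_neg h3]; simp) _ hij
    rw [sm_ev, card_pair_inter (bs_ne h2 hij), if_pos (Finset.mem_singleton_self i)] at h
    push_cast at h
    split_ifs at h <;> norm_num at h
  apply Finset.Subset.antisymm hsub
  intro B hB
  obtain ⟨i, j, hij, rfl⟩ := eq_pair h2 hB
  by_contra hn
  have hn' : ¬ bs N' i j := hn
  obtain ⟨i', hi'⟩ := hloop i j hij
  obtain ⟨j', hj'⟩ := hloop j i (bs_symm hij)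
  set S : Finset (Fin n) := Finset.univ.filter (fun x => ¬ bs N' i x) with hS
  have hmem : ∀ x, x ∈ S ↔ ¬ bs N' i x := by intro x; simp [hS]
  have hiS : i ∈ S := (hmem i).2 (fun h => bs_ne h2' h rfl)
  have hjS : j ∈ S := (hmem j).2 hn'
  have h := central_lin hx hxN' (sm S) 1 (fun B hB => by
      rw [sm_ev]
      obtain ⟨p, q, hpq, rfl⟩ := eq_pair h2 hB
      rw [card_pair_inter (bs_ne h2 hpq)]
      by_cases hp : p ∈ S
      · rw [if_pos hp]
        push_cast
        split_ifs <;> norm_num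
      · by_cases hq : q ∈ S
        · rw [if_pos hq]
          push_cast
          split_ifs <;> norm_num
        · exfalso
          rw [hmem, not_not] at hp hq
          apply h4
          have hpj : bs N' p j := by
            rcases bs_tr hN' h2' hp hj' with h | h
            · exact absurd h hn'
            · exact h
          have hqj : bs N' q j := by
            rcases bs_tr hN' h2' hq hj' with h | h
            · exact absurd h hn'
            · exact h
          exact ⟨i, j, p, q, hij, hsub hp, hsub hq, hsub (bs_symm hpj), hsub (bs_symm hqj), hpq⟩)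
    (fun B hB => by
      rw [sm_ev]
      obtain ⟨p, q, hpq, rfl⟩ := eq_pair h2' hB
      rw [card_pair_inter (bs_ne h2' hpq)]
      by_cases hp : p ∈ S
      · by_cases hq : q ∈ S
        · exfalso
          rw [hmem] at hp hq
          rcases bs_tr hN' h2' hpq hi' with h | h
          · exact hp (bs_symm h)
          · exact hq (bs_symm h)
        · rw [if_pos hp, if_neg hq]; norm_num
      · rw [if_neg hp]
        push_cast
        split_ifs <;> norm_num) _ hij
  rw [sm_ev, card_pair_inter (bs_ne h2 hij), if_pos hiS, if_pos hjS] at h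
  norm_num at h

end Pool.Agent.KS6_87.MS
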