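import Pool.Agent.KS6_87.MS.RankTwo

set_option autoImplicit false

namespace Pool.Agent.KS6_87.MS

open Set Pool.Agent.Q145.MS

variable {n : ℕ}

open Classical in
/-- the parallel class -/
noncomputable def cl (N : Finset (Finset (Fin n))) (i : Fin n) : Finset (Fin n) :=
  Finset.univ.filter (fun x => ¬ bs N i x)

theorem mem_cl {N : Finset (Finset (Fin n))} {i x : Fin n} : x ∈ cl N i ↔ ¬ bs N i x := by
  simp [cl]

section
variable {N : Finset (Finset (Fin n))} (hN : IsMat N) (h2 : N ⊆ Ks n 2)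
  (hl : ∀ i, ∃ j, bs N i j)

include hN h2 hl

/-- the parallel relation is transitive -/
theorem par_trans {i j k : Fin n} (h1 : ¬ bs N i j) (h3 : ¬ bs N j k) : ¬ bs N i k := by
  intro h
  obtain ⟨l, hl⟩ := hl j
  rcases bs_tr hN h2 h hl with h' | h'
  · exact h1 h'
  · exact h3 (bs_symm h')

theorem not_bs_cl {i x y : Fin n} (hx : x ∈ cl N i) (hy : y ∈ cl N i) : ¬ bs N x y := by
  rw [mem_cl] at hx hy
  exact par_trans hN h2 hl (fun h => hx (bs_symm h)) hy

theorem card_inter_cl {B : Finset (Fin n)} (hB : B ∈ N) (i : Fin n) : (B ∩ cl N i).card ≤ 1 := by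
  obtain ⟨p, q, hpq, rfl⟩ := eq_pair h2 hB
  rw [card_pair_inter (bs_ne h2 hpq)]
  by_cases hp : p ∈ cl N i
  · by_cases hq : q ∈ cl N i
    · exact absurd hpq (not_bs_cl hN h2 hl hp hq)
    · rw [if_pos hp, if_neg hq]
  · rw [if_neg hp]
    split_ifs <;> omega

open Classical in
theorem eq_Mk : N = Mk 1 (Finset.univ.image (cl N)) := by
  ext B
  rw [mem_Mk]
  constructor
  · intro hB
    refine ⟨mem_Ks.1 (h2 hB), ?_⟩
    intro ℓ hℓ hsub
    obtain ⟨i, _, rfl⟩ := Finset.mem_image.1 hℓ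
    have h := card_inter_cl hN h2 hl hB i
    rw [Finset.inter_eq_left.2 hsub, mem_Ks.1 (h2 hB)] at h
    omega
  · rintro ⟨hc, h⟩
    obtain ⟨i, j, hij, rfl⟩ := Finset.card_eq_two.1 hc
    by_contra hn
    apply h (cl N i) (Finset.mem_image_of_mem _ (Finset.mem_univ _))
    intro x hx
    simp only [Finset.mem_insert, Finset.mem_singleton] at hx
    rcases hx with rfl | rfl
    · exact mem_cl.2 (fun h => bs_ne h2 h rfl)
    · exact mem_cl.2 hn

theorem mem_poly_of_cl {x : Fin n → ℝ} (hx : x ∈ poly (Ks n 2))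
    (h : ∀ i, sm (cl N i) x ≤ 1) : x ∈ poly N := by
  classical
  rw [eq_Mk hN h2 hl]
  apply mem_poly_Mk (r := 1) _ hx
  · intro ℓ hℓ
    obtain ⟨i, _, rfl⟩ := Finset.mem_image.1 hℓ
    exact_mod_cast h i
  · intro ℓ hℓ m hm hne
    obtain ⟨i, _, rfl⟩ := Finset.mem_image.1 hℓ
    obtain ⟨j, _, rfl⟩ := Finset.mem_image.1 hm
    rw [Nat.lt_one_iff, Finset.card_eq_zero]
    by_contra hne'
    obtain ⟨x, hx⟩ := Finset.nonempty_iff_ne_empty.2 hne'
    obtain ⟨h1, h3⟩ := Finset.mem_inter.1 hx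
    rw [mem_cl] at h1 h3
    apply hne
    have hij : ¬ bs N i j := par_trans hN h2 hl h1 (fun h => h3 (bs_symm h))
    ext y
    rw [mem_cl, mem_cl]
    constructor
    · intro h
      exact par_trans hN h2 hl (fun h => hij (bs_symm h)) h
    · intro h
      exact par_trans hN h2 hl hij h

end

/-- a point in the interior of all cells with an octahedron `a b p q` -/
noncomputable def yy (a b p q : Fin n) : Fin n → ℝ :=
  (5 / 12 : ℝ) • ev {a, b} + (5 / 12 : ℝ) • ev {p, q} +
    (1 / 6 : ℝ) • ∑ B ∈ Ks n 2, (1 / ((Ks n 2).card : ℝ)) • ev B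

theorem yy_central {N : Finset (Finset (Fin n))} (hN : IsMat N) (h2 : N ⊆ Ks n 2)
    (hl : ∀ i, ∃ j, bs N i j) {a b p q : Fin n} (hab : bs N a b) (hap : bs N a p)
    (haq : bs N a q) (hbp : bs N b p) (hbq : bs N b q) (hpq : bs N p q) :
    Central N (yy a b p q) := by
  classical
  have hKne : (Ks n 2).Nonempty := ⟨_, h2 hab⟩
  have hc : (0 : ℝ) < (Ks n 2).card := by exact_mod_cast Finset.card_pos.2 hKne
  set m : ℝ := ((Ks n 2).card : ℝ) with hm
  have hm1 : 1 ≤ m := by
    have := Finset.card_pos.2 hKne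
    rw [hm]; exact_mod_cast this
  set u0 : Fin n → ℝ := ∑ B ∈ Ks n 2, (1 / m) • ev B with hu0
  have hsum1 : ∑ _B ∈ Ks n 2, (1 / m) = 1 := by
    rw [Finset.sum_const, nsmul_eq_mul, ← hm]; field_simp
  have hu0K : u0 ∈ poly (Ks n 2) := by
    apply (convex_poly _).sum_mem
    · intro B _; positivity
    · exact hsum1
    · intro B hB; exact ev_mem_poly_of_mem hB
  have hy : yy a b p q = (5 / 12 : ℝ) • ev {a, b} + (5 / 12 : ℝ) • ev {p, q}
      + (1 / 6 : ℝ) • u0 := rfl
  have hK1 : ev {a, b} ∈ poly (Ks n 2) := ev_mem_poly_of_mem (h2 hab)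
  have hK2 : ev {p, q} ∈ poly (Ks n 2) := ev_mem_poly_of_mem (h2 hpq)
  have hyK : yy a b p q ∈ poly (Ks n 2) := by
    rw [hy]
    have h1 : (1 / 2 : ℝ) • ev {a, b} + (1 / 2 : ℝ) • ev {p, q} ∈ poly (Ks n 2) :=
      (convex_poly _) hK1 hK2 (by norm_num) (by norm_num) (by norm_num)
    have h3 := (convex_poly _) h1 hu0K (a := 5 / 6) (b := 1 / 6) (by norm_num) (by norm_num)
      (by norm_num)
    convert h3 using 1
    rw [smul_add, smul_smul, smul_smul]
    norm_num
  have hys : ∀ i, sm (cl N i) (yy a b p q) ≤ 3 / 4 := by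
    intro i
    rw [hy, map_add, map_add, map_smul, map_smul, map_smul, sm_ev, sm_ev, smul_eq_mul,
      smul_eq_mul, smul_eq_mul]
    have h1 : sm (cl N i) u0 ≤ ((2 : ℕ) : ℝ) := by
      apply sm_le _ hu0K
      intro B hB
      rw [← mem_Ks.1 hB]
      exact Finset.card_le_card Finset.inter_subset_left
    have h3 : (({a, b} : Finset (Fin n)) ∩ cl N i).card
        + (({p, q} : Finset (Fin n)) ∩ cl N i).card ≤ 1 := by
      rw [card_pair_inter (bs_ne h2 hab), card_pair_inter (bs_ne h2 hpq)]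
      have k := fun x y (hx : x ∈ cl N i) (hy : y ∈ cl N i) => not_bs_cl hN h2 hl hx hy
      by_cases ha : a ∈ cl N i
      · rw [if_pos ha, if_neg (fun h => k a b ha h hab), if_neg (fun h => k a p ha h hap),
          if_neg (fun h => k a q ha h haq)]
      · by_cases hb : b ∈ cl N i
        · rw [if_neg ha, if_pos hb, if_neg (fun h => k b p hb h hbp),
            if_neg (fun h => k b q hb h hbq)]
        · rw [if_neg ha, if_neg hb]
          by_cases hp : p ∈ cl N i
          · rw [if_pos hp, if_neg (fun h => k p q hp h hpq)]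
          · rw [if_neg hp]
            split_ifs <;> omega
    have h4 : ((({a, b} : Finset (Fin n)) ∩ cl N i).card : ℝ)
        + (({p, q} : Finset (Fin n)) ∩ cl N i).card ≤ 1 := by exact_mod_cast h3
    push_cast at h1
    linarith
  refine ⟨mem_poly_of_cl hN h2 hl hyK (fun i => (hys i).trans (by norm_num)), ?_⟩
  intro E hE hyE B hB
  set δ : ℝ := 1 / (6 * m) with hδ
  have hδ0 : 0 < δ := by positivity
  have hδ1 : δ ≤ 1 / 6 := by
    rw [hδ]
    apply one_div_le_one_div_of_le (by norm_num)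
    linarith
  set y' : Fin n → ℝ := (1 + δ) • yy a b p q - δ • ev B with hy'
  have hy'K : y' ∈ poly (Ks n 2) := by
    let df : Finset (Fin n) → Finset (Fin n) → ℝ := fun X C => if C = X then 1 else 0
    have hdf0 : ∀ X C, 0 ≤ df X C := by
      intro X C; simp only [df]; split_ifs <;> norm_num
    have hdf1' : ∀ X C, df X C ≤ 1 := by
      intro X C; simp only [df]; split_ifs <;> norm_num
    have hdf1 : ∀ X ∈ Ks n 2, ∑ C ∈ Ks n 2, df X C = 1 := by
      intro X hX
      simp only [df]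
      rw [Finset.sum_ite_eq' (Ks n 2) X, if_pos hX]
    have hdfv : ∀ X ∈ Ks n 2, ∑ C ∈ Ks n 2, df X C • ev C = ev X := by
      intro X hX
      simp only [df, ite_smul, one_smul, zero_smul]
      rw [Finset.sum_ite_eq' (Ks n 2) X, if_pos hX]
    let w : Finset (Fin n) → ℝ := fun C => (1 + δ) * (5 / 12) * df {a, b} C
      + (1 + δ) * (5 / 12) * df {p, q} C + ((1 + δ) * (1 / 6) * (1 / m) - δ * df B C)
    have hw0 : ∀ C ∈ Ks n 2, 0 ≤ w C := by
      intro C _
      have h1 : 0 ≤ (1 + δ) * (5 / 12) * df {a, b} C := mul_nonneg (by positivity) (hdf0 _ _)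
      have h3 : 0 ≤ (1 + δ) * (5 / 12) * df {p, q} C := mul_nonneg (by positivity) (hdf0 _ _)
      have h4 : δ * df B C ≤ δ := by
        have := mul_le_mul_of_nonneg_left (hdf1' B C) hδ0.le
        linarith
      have h5 : (1 + δ) * (1 / 6) * (1 / m) = δ + δ * δ := by
        rw [hδ]; field_simp
      have h6 : 0 ≤ δ * δ := by positivity
      simp only [w]
      rw [h5]
      linarith
    have hw1 : ∑ C ∈ Ks n 2, w C = 1 := by
      simp only [w]
      rw [Finset.sum_add_distrib, Finset.sum_add_distrib, Finset.sum_sub_distrib,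
        ← Finset.mul_sum, ← Finset.mul_sum, ← Finset.mul_sum, ← Finset.mul_sum, hsum1,
        hdf1 _ (h2 hab), hdf1 _ (h2 hpq), hdf1 _ (h2 hB)]
      ring
    have hwv : ∑ C ∈ Ks n 2, w C • ev C = y' := by
      have e : ∀ C ∈ Ks n 2, w C • ev C = ((1 + δ) * (5 / 12)) • (df {a, b} C • ev C)
          + ((1 + δ) * (5 / 12)) • (df {p, q} C • ev C)
          + (((1 + δ) * (1 / 6)) • ((1 / m) • ev C) - δ • (df B C • ev C)) := by
        intro C _
        simp only [w, add_smul, sub_smul, mul_smul]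
      have ea : ∑ C ∈ Ks n 2, ((1 + δ) * (5 / 12)) • (df {a, b} C • ev C)
          = ((1 + δ) * (5 / 12)) • ev {a, b} := by rw [← Finset.smul_sum, hdfv _ (h2 hab)]
      have eb : ∑ C ∈ Ks n 2, ((1 + δ) * (5 / 12)) • (df {p, q} C • ev C)
          = ((1 + δ) * (5 / 12)) • ev {p, q} := by rw [← Finset.smul_sum, hdfv _ (h2 hpq)]
      have ec : ∑ C ∈ Ks n 2, ((1 + δ) * (1 / 6)) • ((1 / m) • ev C)
          = ((1 + δ) * (1 / 6)) • u0 := by rw [← Finset.smul_sum]
      have ed : ∑ C ∈ Ks n 2, δ • (df B C • ev C) = δ • ev B := by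
        rw [← Finset.smul_sum, hdfv _ (h2 hB)]
      rw [Finset.sum_congr rfl e, Finset.sum_add_distrib, Finset.sum_add_distrib,
        Finset.sum_sub_distrib, ea, eb, ec, ed, hy', hy]
      simp only [smul_add, mul_smul]
      abel
    rw [← hwv]
    exact (convex_poly _).sum_mem hw0 hw1 (fun C hC => ev_mem_poly_of_mem hC)
  have hy'N : y' ∈ poly N := by
    apply mem_poly_of_cl hN h2 hl hy'K
    intro i
    rw [hy', map_sub, map_smul, map_smul, sm_ev, smul_eq_mul, smul_eq_mul]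
    have h1 := hys i
    have h3 : 0 ≤ δ * ((B ∩ cl N i).card : ℝ) := by positivity
    have h4 : (1 + δ) * sm (cl N i) (yy a b p q) ≤ (1 + δ) * (3 / 4) :=
      mul_le_mul_of_nonneg_left h1 (by positivity)
    linarith
  refine ext_weight (convex_poly N) hE (ev_mem_poly_of_mem hB) hy'N (a := δ / (1 + δ))
    (by positivity) (by rw [div_le_one (by positivity)]; linarith) ?_ hyE
  have h1 : 1 - δ / (1 + δ) = 1 / (1 + δ) := by field_simp; ring
  have h3 : (1 + δ) ≠ 0 := by positivity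
  rw [h1, hy', smul_sub, smul_smul, smul_smul, one_div, inv_mul_cancel₀ h3, one_smul,
    div_eq_inv_mul]
  abel

/-- cells with a common octahedron are equal -/
theorem cells_eq {N M : Finset (Finset (Fin n))} (hN : IsMat N) (h2 : N ⊆ Ks n 2)
    (hl : ∀ i, ∃ j, bs N i j) (hM : IsMat M) (h2' : M ⊆ Ks n 2) (hl' : ∀ i, ∃ j, bs M i j)
    {P : Set (Fin n → ℝ)} {K : Set (Set (Fin n → ℝ))} (hK : IsMatroidSubdivision P K)
    (hNK : poly N ∈ K) (hMK : poly M ∈ K) {a b p q : Fin n}
    (hab : bs N a b) (hap : bs N a p) (haq : bs N a q) (hbp : bs N b p) (hbq : bs N b q)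
    (hpq : bs N p q) (hab' : bs M a b) (hap' : bs M a p) (haq' : bs M a q) (hbp' : bs M b p)
    (hbq' : bs M b q) (hpq' : bs M p q) : N = M := by
  have h1 := yy_central hN h2 hl hab hap haq hbp hbq hpq
  have h3 := yy_central hM h2' hl' hab' hap' haq' hbp' hbq' hpq'
  have hf := hK.inter _ hNK _ hMK ⟨_, h1.1, h3.1⟩
  apply Finset.Subset.antisymm
  · intro B hB
    exact ev_mem_poly_iff.1 (h1.2 _ hf.1.2.2 ⟨h1.1, h3.1⟩ B hB).2
  · intro B hB
    exact ev_mem_poly_iff.1 (h3.2 _ hf.2.2.2 ⟨h1.1, h3.1⟩ B hB).1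

end Pool.Agent.KS6_87.MS
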