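import Pool.Agent.KS6_87.MS.RankTwoB

set_option autoImplicit false

namespace Pool.Agent.KS6_87.MS

open Set Pool.Agent.Q145.MS

variable {n : ℕ}

theorem cut_key {N : Finset (Finset (Fin n))} {S : Finset (Fin n)} (hN : IsMat N) :
    ∀ B1 ∈ N, ∀ B2 ∈ N, (B1 ∩ S).card = 2 → (B2 ∩ S).card = 0 →
      ∃ C1 ∈ N, ∃ C2 ∈ N, ev B1 + ev B2 = ev C1 + ev C2 ∧ (C1 ∩ S).card = 1 ∧
        (C2 ∩ S).card = 1 := by
  intro B1 hB1 B2 hB2 hc1 hc2
  have hne : (B1 ∩ S).Nonempty := by rw [← Finset.card_pos]; omega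
  obtain ⟨q, hq⟩ := hne
  obtain ⟨hq1, hqS⟩ := Finset.mem_inter.1 hq
  have hB2S : ∀ z ∈ B2, z ∉ S := by
    intro z hz hzS
    have : (B2 ∩ S) = ∅ := Finset.card_eq_zero.1 hc2
    have hz' : z ∈ B2 ∩ S := Finset.mem_inter.2 ⟨hz, hzS⟩
    rw [this] at hz'
    simp at hz'
  have hq2 : q ∉ B2 := fun h => hB2S q h hqS
  obtain ⟨y, hy2, hy1, hC1, hC2⟩ := hN.symm hB1 hB2 hq1 hq2
  refine ⟨_, hC1, _, hC2, ev_exchange hq1 hq2 hy2 hy1, ?_, ?_⟩
  · have := card_exch (S := S) hq1 hy1
    rw [if_pos hqS, if_neg (hB2S y hy2)] at this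
    omega
  · have := card_exch (S := S) hy2 hq2
    rw [if_pos hqS, if_neg (hB2S y hy2)] at this
    omega

theorem cut1 {N : Finset (Finset (Fin n))} (S : Finset (Fin n)) (hN : IsMat N)
    (h2 : N ⊆ Ks n 2) {x : Fin n → ℝ} (hx : x ∈ poly N) (hs : sm S x ≤ 1) :
    x ∈ poly (N.filter (fun B => (B ∩ S).card ≤ 1)) := by
  have := pot hx (fun B => (B ∩ S).card - 1) ?_
  · refine poly_mono ?_ this
    intro B hB
    rw [Finset.mem_filter] at hB
    rw [Finset.mem_filter]
    exact ⟨hB.1, by omega⟩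
  · intro w hw B1 hB1 hw1 hφ
    obtain ⟨B2, hB2, hw2, hc2⟩ := exists_lt hw (S := S) (c := 1) (by exact_mod_cast hs) hB1 hw1
      (by omega)
    have h3 : (B1 ∩ S).card ≤ B1.card := Finset.card_le_card Finset.inter_subset_left
    have h4 := mem_Ks.1 (h2 hB1)
    obtain ⟨C1, hC1, C2, hC2, hev, k1, k2⟩ := cut_key (S := S) hN B1 hB1 B2 hB2 (by omega) (by omega)
    refine ⟨B2, hB2, hw2, C1, hC1, C2, hC2, hev, ?_⟩
    omega

theorem cut2 {N : Finset (Finset (Fin n))} (S : Finset (Fin n)) (hN : IsMat N)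
    (h2 : N ⊆ Ks n 2) {x : Fin n → ℝ} (hx : x ∈ poly N) (hs : 1 ≤ sm S x) :
    x ∈ poly (N.filter (fun B => 1 ≤ (B ∩ S).card)) := by
  have := pot hx (fun B => 1 - (B ∩ S).card) ?_
  · refine poly_mono ?_ this
    intro B hB
    rw [Finset.mem_filter] at hB
    rw [Finset.mem_filter]
    exact ⟨hB.1, by omega⟩
  · intro w hw B1 hB1 hw1 hφ
    obtain ⟨B2, hB2, hw2, hc2⟩ := exists_gt hw (S := S) (c := 1) (by exact_mod_cast hs) hB1 hw1
      (by omega)
    have h3 : (B2 ∩ S).card ≤ B2.card := Finset.card_le_card Finset.inter_subset_left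
    have h4 := mem_Ks.1 (h2 hB2)
    obtain ⟨C1, hC1, C2, hC2, hev, k1, k2⟩ := cut_key (S := S) hN B2 hB2 B1 hB1 (by omega) (by omega)
    refine ⟨B2, hB2, hw2, C1, hC1, C2, hC2, by rw [add_comm]; exact hev, ?_⟩
    omega

theorem ev_pair {i j : Fin n} (hij : i ≠ j) : ev {i, j} = ev {i} + ev {j} := by
  funext x
  simp only [ev, Pi.add_apply, Finset.mem_insert, Finset.mem_singleton]
  by_cases h1 : x = i
  · subst h1; simp [hij]
  · by_cases h2 : x = j
    · subst h2; simp [h1]
    · simp [h1, h2]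

theorem ext_inter {P Q E : Set (Fin n → ℝ)} (h : IsExtreme ℝ P E) (hQ : Q ⊆ P) :
    IsExtreme ℝ Q (Q ∩ E) := by
  refine ⟨inter_subset_left, ?_⟩
  intro x hx y hy z hz hzs
  exact ⟨hx, h.2 (hQ hx) (hQ hy) hz.2 hzs⟩

/-- maximal cells have no loops -/
theorem loopless {K : Set (Set (Fin n → ℝ))}
    (hK : IsMatroidSubdivision (poly (Ks n 2)) K) {M : Finset (Finset (Fin n))} (hM : IsMat M)
    (h2 : M ⊆ Ks n 2) (hmax : IsMaximalCell K (poly M)) {i j : Fin n} (hij : i ≠ j) :
    ∃ l, bs M i l := by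
  by_contra hcon
  push Not at hcon
  obtain ⟨x, hx⟩ := exists_central hM.nonempty
  have hu : ev {i, j} ∈ poly (Ks n 2) :=
    ev_mem_poly_of_mem (mem_Ks.2 (Finset.card_pair hij))
  obtain ⟨t, ht0, ht1, hz⟩ := purity (convex_poly _) hK hmax hx hu
  have h1 : sm {i} ((1 - t) • x + t • ev {i, j}) ≤ ((0 : ℕ) : ℝ) := by
    apply sm_le _ hz
    intro B hB
    obtain ⟨k, l, hkl, rfl⟩ := eq_pair h2 hB
    rw [card_pair_inter (bs_ne h2 hkl)]
    have h3 : k ∉ ({i} : Finset (Fin n)) := by
      rw [Finset.mem_singleton]; rintro rfl; exact hcon l hkl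
    have h4 : l ∉ ({i} : Finset (Fin n)) := by
      rw [Finset.mem_singleton]; rintro rfl; exact hcon k (bs_symm hkl)
    rw [if_neg h3, if_neg h4]
  have h3 : ((0 : ℕ) : ℝ) ≤ sm {i} x := le_sm (fun B _ => Nat.zero_le _) hx.1
  rw [map_add, map_smul, map_smul, sm_ev, card_pair_inter hij,
    if_pos (Finset.mem_singleton_self i), smul_eq_mul, smul_eq_mul] at h1
  have h4 : (1 : ℝ) ≤ ((1 + (if j ∈ ({i} : Finset (Fin n)) then 1 else 0) : ℕ) : ℝ) := by
    push_cast
    split_ifs <;> norm_num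
  have h5 : 0 ≤ (1 - t) * sm {i} x := by
    push_cast at h3
    exact mul_nonneg (by linarith) h3
  have h6 := mul_le_mul_of_nonneg_left h4 ht0.le
  push_cast at h1 h6
  linarith

theorem not_finest {K : Set (Set (Fin n → ℝ))}
    (hF : IsFinest (poly (Ks n 2)) K) {N : Finset (Finset (Fin n))} (hN : IsMat N)
    (h2 : N ⊆ Ks n 2) (hmax : IsMaximalCell K (poly N)) {a b p q : Fin n}
    (hab : bs N a b) (hap : bs N a p) (haq : bs N a q) (hbp : bs N b p) (hbq : bs N b q)
    (hpq : bs N p q) : False := by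
  classical
  have hK := hF.1
  have hother : ∀ i : Fin n, ∃ j, i ≠ j := by
    intro i
    by_cases h : i = a
    · exact ⟨b, by rw [h]; exact bs_ne h2 hab⟩
    · exact ⟨a, h⟩
  have hll : ∀ M, IsMat M → M ⊆ Ks n 2 → IsMaximalCell K (poly M) → ∀ i, ∃ j, bs M i j := by
    intro M hM h2' hmax' i
    obtain ⟨j, hj⟩ := hother i
    exact loopless hK hM h2' hmax' hj
  have hl := hll N hN h2 hmax
  have hsubK : ∀ M, poly M ∈ K → M ⊆ Ks n 2 := by
    intro M hM
    rw [← poly_subset_iff, ← hK.cover]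
    exact subset_sUnion_of_mem hM
  set A : Finset (Fin n) := cl N a ∪ cl N b with hAdef
  have hAmem : ∀ x, x ∉ A ↔ bs N a x ∧ bs N b x := by
    intro x
    rw [hAdef, Finset.mem_union, mem_cl, mem_cl]
    tauto
  have haA : a ∈ A := by
    by_contra h; exact bs_ne h2 ((hAmem a).1 h).1 rfl
  have hbA : b ∈ A := by
    by_contra h; exact bs_ne h2 ((hAmem b).1 h).2 rfl
  have hpA : p ∉ A := (hAmem p).2 ⟨hap, hbp⟩
  have hqA : q ∉ A := (hAmem q).2 ⟨haq, hbq⟩
  have hA : ∀ x ∈ A, ∀ y, y ∉ A → bs N x y := by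
    intro x hx y hy
    obtain ⟨h1, h3⟩ := (hAmem y).1 hy
    by_contra hn
    have h4 : ¬ bs N a x ∨ ¬ bs N b x := by
      by_contra h
      push Not at h
      exact (hAmem x).2 h hx
    rcases h4 with h | h
    · exact par_trans hN h2 hl h hn h1
    · exact par_trans hN h2 hl h hn h3
  set N1 := N.filter (fun B => (B ∩ A).card ≤ 1) with hN1
  set N2 := N.filter (fun B => 1 ≤ (B ∩ A).card) with hN2
  have cab : (({a, b} : Finset (Fin n)) ∩ A).card = 2 := by
    rw [card_pair_inter (bs_ne h2 hab), if_pos haA, if_pos hbA]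
  have cpq : (({p, q} : Finset (Fin n)) ∩ A).card = 0 := by
    rw [card_pair_inter (bs_ne h2 hpq), if_neg hpA, if_neg hqA]
  have s1 : N1 ⊆ N := Finset.filter_subset _ _
  have s2 : N2 ⊆ N := Finset.filter_subset _ _
  have m1 : IsMat N1 := by
    refine isMat_R (R := fun i j => bs N i j ∧ ¬ (i ∈ A ∧ j ∈ A)) ?_ ?_ ?_
      ⟨{p, q}, Finset.mem_filter.2 ⟨hpq, by omega⟩⟩ ?_
    · rintro i j ⟨h1, h3⟩; exact ⟨bs_symm h1, fun h => h3 h.symm⟩
    · rintro i ⟨h1, _⟩; exact bs_ne h2 h1 rfl
    · rintro i j k l ⟨h1, h3⟩ ⟨h4, _⟩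
      by_cases hk : k ∈ A
      · by_cases hi : i ∈ A
        · have hj : j ∉ A := fun h => h3 ⟨hi, h⟩
          exact Or.inr ⟨bs_symm (hA k hk j hj), fun h => hj h.1⟩
        · exact Or.inl ⟨bs_symm (hA k hk i hi), fun h => hi h.1⟩
      · rcases bs_tr hN h2 h1 h4 with h | h
        · exact Or.inl ⟨h, fun h' => hk h'.2⟩
        · exact Or.inr ⟨h, fun h' => hk h'.2⟩
    · intro B
      rw [hN1, Finset.mem_filter]
      constructor
      · rintro ⟨hB, hc⟩
        obtain ⟨i, j, hij, rfl⟩ := eq_pair h2 hB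
        refine ⟨i, j, ⟨hij, ?_⟩, rfl⟩
        rintro ⟨h1, h3⟩
        rw [card_pair_inter (bs_ne h2 hij), if_pos h1, if_pos h3] at hc
        omega
      · rintro ⟨i, j, ⟨hij, h⟩, rfl⟩
        refine ⟨hij, ?_⟩
        rw [card_pair_inter (bs_ne h2 hij)]
        by_cases h1 : i ∈ A
        · rw [if_pos h1, if_neg (fun h3 => h ⟨h1, h3⟩)]
        · rw [if_neg h1]; split_ifs <;> omega
  have m2 : IsMat N2 := by
    refine isMat_R (R := fun i j => bs N i j ∧ (i ∈ A ∨ j ∈ A)) ?_ ?_ ?_
      ⟨{a, b}, Finset.mem_filter.2 ⟨hab, by omega⟩⟩ ?_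
    · rintro i j ⟨h1, h3⟩; exact ⟨bs_symm h1, h3.symm⟩
    · rintro i ⟨h1, _⟩; exact bs_ne h2 h1 rfl
    · rintro i j k l ⟨h1, h3⟩ ⟨h4, _⟩
      by_cases hk : k ∈ A
      · rcases bs_tr hN h2 h1 h4 with h | h
        · exact Or.inl ⟨h, Or.inr hk⟩
        · exact Or.inr ⟨h, Or.inr hk⟩
      · rcases h3 with h3 | h3
        · exact Or.inl ⟨hA i h3 k hk, Or.inl h3⟩
        · exact Or.inr ⟨hA j h3 k hk, Or.inl h3⟩
    · intro B
      rw [hN2, Finset.mem_filter]
      constructor
      · rintro ⟨hB, hc⟩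
        obtain ⟨i, j, hij, rfl⟩ := eq_pair h2 hB
        refine ⟨i, j, ⟨hij, ?_⟩, rfl⟩
        by_contra h
        push Not at h
        rw [card_pair_inter (bs_ne h2 hij), if_neg h.1, if_neg h.2] at hc
        omega
      · rintro ⟨i, j, ⟨hij, h⟩, rfl⟩
        refine ⟨hij, ?_⟩
        rw [card_pair_inter (bs_ne h2 hij)]
        rcases h with h | h
        · rw [if_pos h]; omega
        · rw [if_pos h]; omega
  have le1 : ∀ x ∈ poly N1, sm A x ≤ 1 := by
    intro x hx
    have : sm A x ≤ ((1 : ℕ) : ℝ) := sm_le (fun B hB => (Finset.mem_filter.1 hB).2) hx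
    exact_mod_cast this
  have ge2 : ∀ x ∈ poly N2, 1 ≤ sm A x := by
    intro x hx
    have : ((1 : ℕ) : ℝ) ≤ sm A x := le_sm (fun B hB => (Finset.mem_filter.1 hB).2) hx
    exact_mod_cast this
  have in1 : ∀ x ∈ poly N, sm A x ≤ 1 → x ∈ poly N1 := fun x hx h => cut1 A hN h2 hx h
  have in2 : ∀ x ∈ poly N, 1 ≤ sm A x → x ∈ poly N2 := fun x hx h => cut2 A hN h2 hx h
  -- the other cells are on one side
  have side : ∀ M, IsMat M → IsMaximalCell K (poly M) → M ≠ N →
      (∀ x ∈ poly M ∩ poly N, sm A x ≤ 1) ∨ (∀ x ∈ poly M ∩ poly N, 1 ≤ sm A x) := by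
    intro M hM hMmax hMN
    have h2' := hsubK M hMmax.1
    by_cases hemp : (poly M ∩ poly N).Nonempty
    swap
    · left
      intro x hx
      exact absurd ⟨x, hx⟩ hemp
    obtain ⟨_, hfN⟩ := hK.inter _ hMmax.1 _ hmax.1 hemp
    have hE := face_eq_poly hfN
    have hcomb : (∀ B ∈ N, B ∈ M → (B ∩ A).card ≤ 1) ∨ (∀ B ∈ N, B ∈ M → 1 ≤ (B ∩ A).card) := by
      by_contra hcon
      push Not at hcon
      obtain ⟨⟨B1, hB1, hB1', hc1⟩, B2, hB2, hB2', hc2⟩ := hcon
      obtain ⟨a', b', hab', rfl⟩ := eq_pair h2 hB1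
      obtain ⟨p', q', hpq', rfl⟩ := eq_pair h2 hB2
      rw [card_pair_inter (bs_ne h2 hab')] at hc1
      rw [card_pair_inter (bs_ne h2 hpq')] at hc2
      have ha' : a' ∈ A := by
        by_contra h; rw [if_neg h] at hc1; split_ifs at hc1 <;> omega
      have hb' : b' ∈ A := by
        by_contra h; rw [if_neg h] at hc1; split_ifs at hc1 <;> omega
      have hp' : p' ∉ A := by
        intro h; rw [if_pos h] at hc2; omega
      have hq' : q' ∉ A := by
        intro h; rw [if_pos h] at hc2; omega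
      have c1 := hA a' ha' p' hp'
      have c2 := hA a' ha' q' hq'
      have c3 := hA b' hb' p' hp'
      have c4 := hA b' hb' q' hq'
      have hmid : (1 / 2 : ℝ) • ev {a', b'} + (1 / 2 : ℝ) • ev {p', q'} ∈ poly M ∩ poly N :=
        ⟨(convex_poly M) (ev_mem_poly_of_mem hB1') (ev_mem_poly_of_mem hB2') (by norm_num)
          (by norm_num) (by norm_num),
         (convex_poly N) (ev_mem_poly_of_mem hB1) (ev_mem_poly_of_mem hB2) (by norm_num)
          (by norm_num) (by norm_num)⟩
      have get : ∀ {i j k l : Fin n}, bs N i j → bs N k l →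
          ev {a', b'} + ev {p', q'} = ev {i, j} + ev {k, l} → bs M i j ∧ bs M k l := by
        intro i j k l h1 h3 he
        have e1 : (1 / 2 : ℝ) • ev {a', b'} + (1 / 2 : ℝ) • ev {p', q'}
            = (1 / 2 : ℝ) • ev {i, j} + (1 - 1 / 2 : ℝ) • ev {k, l} := by
          rw [← smul_add, he, smul_add]; norm_num
        have e2 : (1 / 2 : ℝ) • ev {a', b'} + (1 / 2 : ℝ) • ev {p', q'}
            = (1 / 2 : ℝ) • ev {k, l} + (1 - 1 / 2 : ℝ) • ev {i, j} := by
          rw [e1, add_comm]; norm_num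
        exact ⟨ev_mem_poly_iff.1 (ext_weight (convex_poly N) hfN.2.2 (ev_mem_poly_of_mem h1)
          (ev_mem_poly_of_mem h3) (by norm_num) (by norm_num) e1 hmid).1,
          ev_mem_poly_iff.1 (ext_weight (convex_poly N) hfN.2.2 (ev_mem_poly_of_mem h3)
          (ev_mem_poly_of_mem h1) (by norm_num) (by norm_num) e2 hmid).1⟩
      have g1 := get c1 c4 (by
        rw [ev_pair (bs_ne h2 hab'), ev_pair (bs_ne h2 hpq'), ev_pair (bs_ne h2 c1),
          ev_pair (bs_ne h2 c4)]; abel)
      have g2 := get c2 c3 (by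
        rw [ev_pair (bs_ne h2 hab'), ev_pair (bs_ne h2 hpq'), ev_pair (bs_ne h2 c2),
          ev_pair (bs_ne h2 c3)]; abel)
      exact hMN (cells_eq hM h2' (hll M hM h2' hMmax) hN h2 hl hK hMmax.1 hmax.1
        hB1' g1.1 g2.1 g2.2 g1.2 hB2' hab' c1 c2 c3 c4 hpq')
    have hvin : ∀ B ∈ vin N (poly M ∩ poly N), B ∈ N ∧ B ∈ M := by
      intro B hB
      obtain ⟨h1, h3⟩ := mem_vin.1 hB
      exact ⟨h1, ev_mem_poly_iff.1 h3.1⟩
    rcases hcomb with h | h
    · left
      intro x hx
      rw [hE] at hx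
      have : sm A x ≤ ((1 : ℕ) : ℝ) :=
        sm_le (fun B hB => h B (hvin B hB).1 (hvin B hB).2) hx
      exact_mod_cast this
    · right
      intro x hx
      rw [hE] at hx
      have : ((1 : ℕ) : ℝ) ≤ sm A x :=
        le_sm (fun B hB => h B (hvin B hB).1 (hvin B hB).2) hx
      exact_mod_cast this
  -- the refined subdivision
  let T := {M : Finset (Finset (Fin n)) // IsMat M ∧ IsMaximalCell K (poly M) ∧ M ≠ N}
  let F : T ⊕ Bool → Finset (Finset (Fin n)) :=
    Sum.elim (fun M => M.1) (fun i => if i then N1 else N2)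
  have hsubN : ∀ i : Bool, poly (if i then N1 else N2) ⊆ poly N := by
    intro i
    cases i
    · exact poly_mono s2
    · exact poly_mono s1
  have hbuild : IsMatroidSubdivision (poly (Ks n 2)) {E | ∃ i, IsFace (poly (F i)) E} := by
    refine build F (Ks n 2) ?_ ?_ ?_ ?_
    · rintro (M | i)
      · exact M.2.1
      · cases i
        · exact m2
        · exact m1
    · rintro (M | i)
      · exact hsubK M.1 M.2.2.1.1
      · cases i
        · exact s2.trans h2
        · exact s1.trans h2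
    · intro x hx
      rw [← hK.cover] at hx
      obtain ⟨C0, hC0, hxC0⟩ := hx
      obtain ⟨C, hCmax, hC0C⟩ := exists_maximal hK hC0
      obtain ⟨M, hM, rfl⟩ := cell_eq hK hCmax.1
      by_cases hMN : M = N
      · subst hMN
        by_cases h : sm A x ≤ 1
        · exact ⟨Sum.inr true, in1 x (hC0C hxC0) h⟩
        · exact ⟨Sum.inr false, in2 x (hC0C hxC0) (by linarith)⟩
      · exact ⟨Sum.inl ⟨M, hM, hCmax, hMN⟩, hC0C hxC0⟩
    · rintro (M | i) (M' | j) hne
      · exact (hK.inter _ M.2.2.1.1 _ M'.2.2.1.1 hne).1.2.2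
      · change IsExtreme ℝ (poly M.1) (poly M.1 ∩ poly (if j then N1 else N2))
        have hne' : (poly M.1 ∩ poly N).Nonempty := by
          obtain ⟨x, h1, h3⟩ := hne
          exact ⟨x, h1, hsubN j h3⟩
        have hf := (hK.inter _ M.2.2.1.1 _ hmax.1 hne').1
        have hside := side M.1 M.2.1 M.2.2.1 M.2.2.2
        have full : ∀ i : Bool, (∀ x ∈ poly M.1 ∩ poly N, x ∈ poly (if i then N1 else N2)) →
            IsExtreme ℝ (poly M.1) (poly M.1 ∩ poly (if i then N1 else N2)) := by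
          intro i h
          have e : poly M.1 ∩ poly (if i then N1 else N2) = poly M.1 ∩ poly N := by
            apply Subset.antisymm
            · rintro x ⟨h1, h3⟩; exact ⟨h1, hsubN i h3⟩
            · rintro x hx; exact ⟨hx.1, h x hx⟩
          rw [e]
          exact hf.2.2
        cases j
        · rcases hside with h | h
          · have e : poly M.1 ∩ poly N2 = {x | x ∈ poly M.1 ∩ poly N ∧ sm A x = 1} := by
              apply Subset.antisymm
              · rintro x ⟨h1, h3⟩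
                exact ⟨⟨h1, poly_mono s2 h3⟩, le_antisymm (h x ⟨h1, poly_mono s2 h3⟩) (ge2 x h3)⟩
              · rintro x ⟨h1, h3⟩
                exact ⟨h1.1, in2 x h1.2 h3.ge⟩
            simp only [Bool.false_eq_true, if_false]
            rw [e]
            exact hf.2.2.trans (ext_of_le (sm A) 1 h)
          · exact full false (fun x hx => by
              simp only [Bool.false_eq_true, if_false]
              exact in2 x hx.2 (h x hx))
        · rcases hside with h | h
          · exact full true (fun x hx => by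
              simp only [if_true]
              exact in1 x hx.2 (h x hx))
          · have e : poly M.1 ∩ poly N1 = {x | x ∈ poly M.1 ∩ poly N ∧ sm A x = 1} := by
              apply Subset.antisymm
              · rintro x ⟨h1, h3⟩
                exact ⟨⟨h1, poly_mono s1 h3⟩, le_antisymm (le1 x h3) (h x ⟨h1, poly_mono s1 h3⟩)⟩
              · rintro x ⟨h1, h3⟩
                exact ⟨h1.1, in1 x h1.2 h3.le⟩
            simp only [if_true]
            rw [e]
            exact hf.2.2.trans (ext_of_ge (sm A) 1 h)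
      · change IsExtreme ℝ (poly (if i then N1 else N2)) (poly (if i then N1 else N2) ∩ poly M'.1)
        have hne' : (poly N ∩ poly M'.1).Nonempty := by
          obtain ⟨x, h1, h3⟩ := hne
          exact ⟨x, hsubN i h1, h3⟩
        have hf := (hK.inter _ hmax.1 _ M'.2.2.1.1 hne').1
        have e : poly (if i then N1 else N2) ∩ poly M'.1
            = poly (if i then N1 else N2) ∩ (poly N ∩ poly M'.1) := by
          apply Subset.antisymm
          · rintro x ⟨h1, h3⟩; exact ⟨h1, hsubN i h1, h3⟩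
          · rintro x ⟨h1, _, h3⟩; exact ⟨h1, h3⟩
        rw [e]
        exact ext_inter hf.2.2 (hsubN i)
      · change IsExtreme ℝ (poly (if i then N1 else N2))
          (poly (if i then N1 else N2) ∩ poly (if j then N1 else N2))
        cases i <;> cases j
        · simp only [inter_self]; exact IsExtreme.refl ℝ _
        · have e : poly N2 ∩ poly N1 = {x | x ∈ poly N2 ∧ sm A x = 1} := by
            apply Subset.antisymm
            · rintro x ⟨h3, h4⟩
              exact ⟨h3, le_antisymm (le1 x h4) (ge2 x h3)⟩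
            · rintro x ⟨h3, h4⟩
              exact ⟨h3, in1 x (poly_mono s2 h3) h4.le⟩
          simp only [Bool.false_eq_true, if_false, if_true]
          rw [e]
          exact ext_of_ge (sm A) 1 ge2
        · have e : poly N1 ∩ poly N2 = {x | x ∈ poly N1 ∧ sm A x = 1} := by
            apply Subset.antisymm
            · rintro x ⟨h3, h4⟩
              exact ⟨h3, le_antisymm (le1 x h3) (ge2 x h4)⟩
            · rintro x ⟨h3, h4⟩
              exact ⟨h3, in2 x (poly_mono s1 h3) h4.ge⟩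
          simp only [Bool.false_eq_true, if_false, if_true]
          rw [e]
          exact ext_of_le (sm A) 1 le1
        · simp only [inter_self]; exact IsExtreme.refl ℝ _
  have href : Refines {E | ∃ i, IsFace (poly (F i)) E} K := by
    rintro E ⟨i, hE⟩
    rcases i with M | i
    · exact ⟨_, M.2.2.1.1, hE.2.2.1⟩
    · exact ⟨_, hmax.1, hE.2.2.1.trans (hsubN i)⟩
  have heq := hF.2 _ hbuild href
  have hmem := hmax.1
  rw [← heq] at hmem
  obtain ⟨i, hi⟩ := hmem
  rcases i with M | i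
  · have h1 := hmax.2 _ M.2.2.1.1 hi.2.2.1
    apply M.2.2.2
    apply Finset.Subset.antisymm
    · exact poly_subset_iff.1 h1.le
    · exact poly_subset_iff.1 h1.ge
  · have h1 : N ⊆ (if i then N1 else N2) := poly_subset_iff.1 hi.2.2.1
    cases i
    · have h3 := h1 hpq
      simp only [Bool.false_eq_true, if_false, hN2, Finset.mem_filter] at h3
      omega
    · have h3 := h1 hab
      simp only [if_true, hN1, Finset.mem_filter] at h3
      omega

/-- all maximal cells of all finest subdivisions of `Δ(k,n)` are indecomposable -/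
def Pos (k n : ℕ) : Prop :=
  ∀ (K : Set (Set (Fin n → ℝ))) (C : Set (Fin n → ℝ)), IsFinest (hypersimplex k n) K →
    IsMaximalCell K C →
      ∃ N : Matroid (Fin n), N.E = univ ∧ matroidPolytope N = C ∧ Indecomposable N

theorem pos_two (n : ℕ) : Pos 2 n := by
  intro K C hK hC
  rw [hypersimplex_eq] at hK
  obtain ⟨N, hN, rfl⟩ := cell_eq hK.1 hC.1
  have h2 : N ⊆ Ks n 2 := by
    rw [← poly_subset_iff, ← hK.1.cover]
    exact subset_sUnion_of_mem hC.1
  obtain ⟨N0, hE, hb⟩ := id hN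
  refine ⟨N0, hE, by rw [matroidPolytope_eq, hb], ?_⟩
  unfold Indecomposable
  rw [matroidPolytope_eq, hb]
  apply indec_three hN h2
  rintro ⟨a, b, p, q, h1, h3, h4, h5, h6, h7⟩
  exact not_finest hK hN h2 hC h1 h3 h4 h5 h6 h7

theorem pos_small {k n : ℕ} (hk : k ≤ 1) (hkn : k ≤ n) : Pos k n := by
  have hne : (Ks n k).Nonempty := by
    obtain ⟨B, _, hB⟩ := Finset.exists_subset_card_eq
      (s := (Finset.univ : Finset (Fin n))) (n := k) (by simpa using hkn)
    exact ⟨B, mem_Ks.2 hB⟩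
  have hrig : ∀ x, Central (Ks n k) x → ∀ N', IsMat N' → N' ⊆ Ks n k → x ∈ poly N' →
      N' = Ks n k := by
    intro x hx N' hN' hsub hxN'
    apply Finset.Subset.antisymm hsub
    intro B hB
    by_contra hn
    have hBc := mem_Ks.1 hB
    rcases Nat.le_one_iff_eq_zero_or_eq_one.1 hk with h0 | h1
    · subst h0
      obtain ⟨C, hC⟩ := hN'.nonempty
      have hCc := mem_Ks.1 (hsub hC)
      rw [Finset.card_eq_zero] at hBc hCc
      rw [hBc, ← hCc] at hn
      exact hn hC
    · subst h1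
      obtain ⟨i, rfl⟩ := Finset.card_eq_one.1 hBc
      have h := central_lin hx hxN' (sm {i}) 0 (fun B _ => by rw [sm_ev]; positivity)
        (fun B' hB' => by
          obtain ⟨j, rfl⟩ := Finset.card_eq_one.1 (mem_Ks.1 (hsub hB'))
          have hij : j ≠ i := by rintro rfl; exact hn hB'
          rw [sm_ev, Finset.singleton_inter_of_notMem (by simpa using hij)]
          simp) _ hB
      rw [sm_ev, Finset.inter_self, Finset.card_singleton] at h
      norm_num at h
  have hind := indec_of_rigid hne hrig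
  intro K C hK hC
  rw [hypersimplex_eq] at hK
  have hKeq := hind K hK.1
  have hP : poly (Ks n k) ∈ K := by
    rw [hKeq]
    exact ⟨poly_nonempty hne, convex_poly _, IsExtreme.refl ℝ _⟩
  have hCP : C ⊆ poly (Ks n k) := by
    rw [← hK.1.cover]
    exact subset_sUnion_of_mem hC.1
  have hCe : poly (Ks n k) = C := hC.2 _ hP hCP
  obtain ⟨N, hN, hCN⟩ := hK.1.isMatroidPolytope C hC.1
  refine ⟨N, hN, hCN.symm, ?_⟩
  unfold Indecomposable
  rw [← hCN, ← hCe]
  exact hind

theorem pos_dual {k m n : ℕ} (h : k + m = n) (hP : Pos k n) : Pos m n := by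
  intro K C hK hC
  have h1 := finest_du hK
  rw [hypersimplex_du (m := k) (by omega)] at h1
  obtain ⟨N, _, hN, hind⟩ := hP _ _ h1 (maximal_du hC)
  obtain ⟨N', hN'E, hN'⟩ := hK.1.isMatroidPolytope C hC.1
  refine ⟨N', hN'E, hN'.symm, ?_⟩
  unfold Indecomposable at hind ⊢
  rw [hN] at hind
  rw [← hN']
  exact indec_du hind

theorem pos_all {k n : ℕ} (hkn : k ≤ n) (h : k ≤ 2 ∨ n ≤ k + 2) : Pos k n := by
  have small : ∀ k : ℕ, k ≤ n → k ≤ 2 → Pos k n := by
    intro k hkn hk
    by_cases h2 : k = 2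
    · subst h2; exact pos_two n
    · exact pos_small (by omega) hkn
  rcases h with h | h
  · exact small k hkn h
  · exact pos_dual (k := n - k) (by omega) (small (n - k) (by omega) (by omega))

end Pool.Agent.KS6_87.MS
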